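import Pool.Agent.Helper34.Dep.Defs

/-!
# Automorphisms of the algebraic closure of a rational function field
-/

set_option autoImplicit false
set_option linter.style.haveILetI false

namespace Pool.Agent.Helper34.Dep

open Polynomial Pool.Agent.Helper16 Pool.Agent.Helper47.RR IntermediateField

variable {k K B : Type} [Field k] [Field K] [Field B] [Algebra k K] [Algebra k B]

theorem exists_extension {F A B : Type} [Field F] [Field A] [Field B] [Algebra F A]
    [Algebra.IsAlgebraic F A] [IsAlgClosed B] (θ : F →+* B) :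
    ∃ ρ : A →+* B, ρ.comp (algebraMap F A) = θ := by
  letI := θ.toAlgebra
  refine ⟨((IsAlgClosed.lift : A →ₐ[F] B) : A →+* B), ?_⟩
  ext x
  exact AlgHom.commutes (IsAlgClosed.lift : A →ₐ[F] B) x

theorem exists_hom [IsAlgClosed B] (T : K) (hT : Transcendental k T)
    [Algebra.IsAlgebraic k⟮T⟯ K] (u : B) (hu : Transcendental k u) :
    ∃ ρ : K →ₐ[k] B, ρ T = u := by
  letI := algXF k T
  haveI := isFractionRing_algXF T hT
  have hinj : Function.Injective ((aeval u : k[X] →ₐ[k] B) : k[X] →+* B) :=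
    transcendental_iff_injective.1 hu
  let θ : k⟮T⟯ →+* B := IsFractionRing.lift hinj
  have hθ : ∀ p : k[X], θ (algebraMap k[X] k⟮T⟯ p) = aeval u p :=
    fun p => IsFractionRing.lift_algebraMap hinj p
  obtain ⟨ρ, hρ⟩ := exists_extension (A := K) θ
  have hρ' : ∀ p : k[X], ρ (aeval T p) = aeval u p := by
    intro p
    rw [← hθ, ← hρ, RingHom.comp_apply]
    congr 1
    exact (algXF_apply T p).symm
  refine ⟨{ ρ with commutes' := fun c => ?_ }, ?_⟩
  · have := hρ' (C c)
    rw [aeval_C, aeval_C] at this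
    exact this
  · have := hρ' X
    rw [aeval_X, aeval_X] at this
    exact this

theorem isAlgebraic_of_trdeg (htr : Algebra.trdeg k K = 1) (E : IntermediateField k K) (T : K)
    (hTE : T ∈ E) (hT : Transcendental k T) : Algebra.IsAlgebraic E K := by
  have h1 := trdeg_add_eq k E (A := K)
  have h3 : Algebra.trdeg k E ≠ 0 := by
    intro h
    rw [trdeg_eq_zero_iff] at h
    have h4 : IsAlgebraic k (⟨T, hTE⟩ : E) := Algebra.IsAlgebraic.isAlgebraic _
    exact hT (h4.algebraMap (A := K))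
  rw [← trdeg_eq_zero_iff]
  rw [htr] at h1
  have h5 : 1 ≤ Algebra.trdeg k E := Cardinal.one_le_iff_ne_zero.2 h3
  have h6 : Algebra.trdeg k E < Cardinal.aleph0 := by
    refine lt_of_le_of_lt ?_ Cardinal.one_lt_aleph0
    rw [← h1]; exact le_self_add
  have h7 : Algebra.trdeg E K < Cardinal.aleph0 := by
    refine lt_of_le_of_lt ?_ Cardinal.one_lt_aleph0
    rw [← h1]; exact self_le_add_left _ _
  obtain ⟨a, ha⟩ := Cardinal.lt_aleph0.1 h6
  obtain ⟨b, hb⟩ := Cardinal.lt_aleph0.1 h7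
  rw [ha] at h5 h1
  rw [hb] at h1 ⊢
  norm_cast at h1 h5 ⊢
  omega

theorem alg_end_surjective [IsAlgClosed K] (htr : Algebra.trdeg k K = 1) (T : K)
    (hT : Transcendental k T) (ρ : K →ₐ[k] K) : Function.Surjective ρ := by
  have h1 : Transcendental k (ρ T) := by
    intro h
    exact hT ((isAlgebraic_algHom_iff ρ ρ.toRingHom.injective).1 h)
  haveI := isAlgebraic_of_trdeg htr ρ.fieldRange (ρ T) ⟨T, rfl⟩ h1
  haveI : IsAlgClosed ρ.fieldRange :=
    IsAlgClosed.of_ringEquiv K ρ.fieldRange (AlgEquiv.ofInjectiveField ρ).toRingEquiv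
  have h2 := (IsAlgClosed.algebraMap_bijective_of_isIntegral (k := ρ.fieldRange) (K := K)).2
  intro x
  obtain ⟨⟨y, z, hz⟩, hy⟩ := h2 x
  refine ⟨z, ?_⟩
  rw [← hy]
  exact hz

theorem exists_aut [IsAlgClosed K] (htr : Algebra.trdeg k K = 1) (T : K)
    (hT : Transcendental k T) (u : K) (hu : Transcendental k u) : ∃ ρ : K ≃ₐ[k] K, ρ T = u := by
  haveI := isAlgebraic_of_trdeg htr k⟮T⟯ T (mem_adjoin_simple_self k T) hT
  obtain ⟨ρ, hρ⟩ := exists_hom (k := k) T hT u hu
  exact ⟨AlgEquiv.ofBijective ρ ⟨ρ.toRingHom.injective, alg_end_surjective htr T hT ρ⟩, hρ⟩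

end Pool.Agent.Helper34.Dep
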