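import Pool.Agent.Helper34.Dep.Defs

/-!
# Counting embeddings, degrees of composita
-/

set_option autoImplicit false
set_option linter.style.haveILetI false

namespace Pool.Agent.Helper34.Dep

open Polynomial Pool.Agent.Helper16 Pool.Agent.Helper47.RR IntermediateField

variable {k M M' K : Type} [Field k] [Field M] [Field M'] [Field K] [Algebra k M] [Algebra k M']
  [Algebra k K]

/-- the number of embeddings with a prescribed value at `T` -/
theorem card_embeddings_le (T : M) [FiniteDimensional k⟮T⟯ M] (T' : K) :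
    {ψ : M →ₐ[k] K | ψ T = T'}.Finite ∧
      {ψ : M →ₐ[k] K | ψ T = T'}.ncard ≤ Module.finrank k⟮T⟯ M := by
  classical
  by_cases hne : ∃ ψ₀ : M →ₐ[k] K, ψ₀ T = T'
  swap
  · have : {ψ : M →ₐ[k] K | ψ T = T'} = ∅ := by
      ext ψ
      simp only [Set.mem_ofPred_eq, Set.mem_empty_iff_false, iff_false]
      exact fun h => hne ⟨ψ, h⟩
    rw [this]
    simp
  obtain ⟨ψ₀, hψ₀⟩ := hne
  letI : Algebra k⟮T⟯ K := ((ψ₀ : M →+* K).comp (algebraMap k⟮T⟯ M)).toAlgebra
  have hT : ∀ (ψ : M →ₐ[k] K), ψ T = T' → ∀ x : k⟮T⟯, ψ (x : M) = ψ₀ (x : M) := by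
    intro ψ hψ x
    have h1 : ψ.comp (k⟮T⟯).val = ψ₀.comp (k⟮T⟯).val := by
      apply IntermediateField.adjoin_algHom_ext
      intro y hy
      rw [Set.mem_singleton_iff] at hy
      subst hy
      change ψ y = ψ₀ y
      rw [hψ, hψ₀]
    exact DFunLike.congr_fun h1 x
  let f : {ψ : M →ₐ[k] K | ψ T = T'} → (M →ₐ[k⟮T⟯] K) := fun ψ =>
    { (ψ.1 : M →+* K) with
      commutes' := fun x => hT ψ.1 ψ.2 x }
  have hf : Function.Injective f := by
    intro a b hab
    apply Subtype.ext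
    ext x
    exact DFunLike.congr_fun hab x
  haveI : Finite {ψ : M →ₐ[k] K | ψ T = T'} := Finite.of_injective f hf
  refine ⟨Set.toFinite _, ?_⟩
  rw [← Nat.card_coe_set_eq]
  exact (Nat.card_le_card_of_injective f hf).trans (card_algHom_le_finrank _ _ _)

theorem finrank_extend (φ : M →ₐ[k] K) (T : M) (h : k⟮φ T⟯ ≤ φ.fieldRange) :
    Module.finrank k⟮φ T⟯ (extendScalars h) = Module.finrank k⟮T⟯ M := by
  have h1 : (k⟮T⟯).map φ = k⟮φ T⟯ := by
    rw [IntermediateField.adjoin_map, Set.image_singleton]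
  let i : k⟮T⟯ ≃ₐ[k] k⟮φ T⟯ :=
    (IntermediateField.equivMap k⟮T⟯ φ).trans (IntermediateField.equivOfEq h1)
  let j : M ≃+* (extendScalars h) := (AlgEquiv.ofInjectiveField φ).toRingEquiv
  symm
  apply Algebra.finrank_eq_of_equiv_equiv i.toRingEquiv j
  ext x
  rfl

/-- degree of a compositum -/
theorem finrank_compositum (φ : M →ₐ[k] K) (φ' : M' →ₐ[k] K) (T : M) (T' : M')
    (hTT : φ T = φ' T') (htop : φ.fieldRange ⊔ φ'.fieldRange = ⊤) :
    Module.finrank k⟮φ T⟯ K ≤ Module.finrank k⟮T⟯ M * Module.finrank k⟮T'⟯ M' := by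
  have h1 : k⟮φ T⟯ ≤ φ.fieldRange := by
    rw [IntermediateField.adjoin_simple_le_iff]
    exact ⟨T, rfl⟩
  have h2 : k⟮φ' T'⟯ ≤ φ'.fieldRange := by
    rw [IntermediateField.adjoin_simple_le_iff]
    exact ⟨T', rfl⟩
  have h3 : k⟮φ T⟯ ≤ φ'.fieldRange := by rw [hTT]; exact h2
  have h4 := IntermediateField.finrank_sup_le (extendScalars h1) (extendScalars h3)
  have h5 : extendScalars h1 ⊔ extendScalars h3 = ⊤ := by
    apply top_le_iff.1
    intro x _
    rw [extendScalars_sup, mem_extendScalars, htop]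
    trivial
  rw [h5, IntermediateField.finrank_top', finrank_extend φ T h1] at h4
  have h6 : Module.finrank k⟮φ T⟯ (extendScalars h3) = Module.finrank k⟮T'⟯ M' := by
    rw [← finrank_extend φ' T' h2]
    have : ∀ (a b : K) (hab : a = b) (ha : k⟮a⟯ ≤ φ'.fieldRange) (hb : k⟮b⟯ ≤ φ'.fieldRange),
        Module.finrank k⟮a⟯ (extendScalars ha) = Module.finrank k⟮b⟯ (extendScalars hb) := by
      intro a b hab ha hb
      subst hab
      rfl
    exact this _ _ hTT _ _
  rwa [h6] at h4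

end Pool.Agent.Helper34.Dep
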