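import Pool.Agent.Helper34.Dep.Trans
import Pool.Agent.Helper34.Dep.Emb
import Pool.Agent.Helper64.Dep.PD

/-!
# Two function fields with many common points are isomorphic, and the places correspond
-/

set_option autoImplicit false
set_option linter.style.haveILetI false

namespace Pool.Agent.Helper34.Dep

open Polynomial Pool.Agent.Helper16 Pool.Agent.Helper47.RR IntermediateField Pool.Agent.Helper64.Dep

variable {k M M' K : Type} [Field k] [Field M] [Field M'] [Field K] [Algebra k M] [Algebra k M']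
  [Algebra k K]

/-- a finitely generated subfield containing a transcendental element is a function field -/
theorem isFunctionField_of_fg (htr : Algebra.trdeg k K = 1) (E : IntermediateField k K)
    (hE : E.FG) (s : K) (hs : s ∈ E) (hst : Transcendental k s) : IsFunctionField k E := by
  refine ⟨IntermediateField.essFiniteType_iff.2 hE, ?_⟩
  have h2 := trdeg_add_eq k E (A := K)
  have h3 : Algebra.trdeg k E ≠ 0 := by
    intro h
    rw [trdeg_eq_zero_iff] at h
    have h4 : IsAlgebraic k (⟨s, hs⟩ : E) := Algebra.IsAlgebraic.isAlgebraic _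
    exact hst (h4.algebraMap (A := K))
  refine le_antisymm ?_ (Cardinal.one_le_iff_ne_zero.2 h3)
  calc Algebra.trdeg k E ≤ _ + _ := le_self_add
    _ = 1 := by rw [h2, htr]

theorem fieldRange_fg (hM : IsFunctionField k M) (φ : M →ₐ[k] K) : φ.fieldRange.FG := by
  haveI := hM.1
  obtain ⟨t, ht, htop⟩ := IntermediateField.fg_def.1 (IntermediateField.fg_top k M)
  rw [AlgHom.fieldRange_eq_map, ← htop, IntermediateField.adjoin_map]
  exact IntermediateField.fg_adjoin_of_finite (ht.image _)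

/-- zeros of a difference of two elements -/
theorem eq_of_many_zeros [IsAlgClosed k] (htr : Algebra.trdeg k K = 1) (hM : IsFunctionField k M)
    (hM' : IsFunctionField k M') (ψ : M →ₐ[k] K) (ψ' : M' →ₐ[k] K) (T : M) (T' : M')
    (hT : Transcendental k T) (hT' : Transcendental k T') (hTT : ψ T = ψ' T') (a : M) (a' : M')
    (J : Finset ℕ) (g : ℕ → Germ k K) (c : ℕ → k) (hc : Set.InjOn c J)
    (hg : ∀ l ∈ J, (g l).Val (ψ T) (c l)) (hz : ∀ l ∈ J, (g l).Val (ψ a - ψ' a') 0)
    (hcard : pd hM' T' * pd hM a + pd hM T * pd hM' a' < J.card) : ψ a = ψ' a' := by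
  classical
  by_contra hne
  have hne' : ψ a - ψ' a' ≠ 0 := sub_ne_zero.2 hne
  let E : IntermediateField k K := ψ.fieldRange ⊔ ψ'.fieldRange
  have hEfg : E.FG := IntermediateField.fg_sup (fieldRange_fg hM ψ) (fieldRange_fg hM' ψ')
  have hψE : ∀ x, ψ x ∈ E := fun x => (le_sup_left : ψ.fieldRange ≤ E) ⟨x, rfl⟩
  have hψE' : ∀ x, ψ' x ∈ E := fun x => (le_sup_right : ψ'.fieldRange ≤ E) ⟨x, rfl⟩
  have hψT : Transcendental k (ψ T) := by
    intro h
    exact hT ((isAlgebraic_algHom_iff ψ ψ.toRingHom.injective).1 h)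
  have hE : IsFunctionField k E := isFunctionField_of_fg htr E hEfg (ψ T) (hψE T) hψT
  let φ : M →ₐ[k] E := ψ.codRestrict E.toSubalgebra hψE
  let φ' : M' →ₐ[k] E := ψ'.codRestrict E.toSubalgebra hψE'
  have hφ : ∀ x, (φ x : K) = ψ x := fun x => rfl
  have hφ' : ∀ x, (φ' x : K) = ψ' x := fun x => rfl
  have htop : φ.fieldRange ⊔ φ'.fieldRange = ⊤ := by
    have h1 : (φ.fieldRange ⊔ φ'.fieldRange).map E.val = (⊤ : IntermediateField k E).map E.val := by
      rw [IntermediateField.map_sup, AlgHom.map_fieldRange, AlgHom.map_fieldRange,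
        ← AlgHom.fieldRange_eq_map, IntermediateField.fieldRange_val]
      rfl
    exact IntermediateField.map_injective E.val h1
  have hTTE : φ T = φ' T' := Subtype.ext hTT
  -- degrees
  have hcomp := finrank_compositum φ φ' T T' hTTE htop
  have hφT : Transcendental k (φ T) := by
    intro h
    exact hT ((isAlgebraic_algHom_iff φ φ.toRingHom.injective).1 h)
  have hφT' : Transcendental k (φ' T') := hTTE ▸ hφT
  haveI := hM.finiteDimensional T hT
  haveI := hM'.finiteDimensional T' hT'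
  have hpos : 0 < pd hM T := by rw [pd_eq_finrank hM T hT]; exact Module.finrank_pos
  have hpos' : 0 < pd hM' T' := by rw [pd_eq_finrank hM' T' hT']; exact Module.finrank_pos
  have h1 := pd_hom hM hE φ T
  have h2 := pd_hom hM' hE φ' T'
  rw [← pd_eq_finrank hE _ hφT, ← pd_eq_finrank hM _ hT, ← pd_eq_finrank hM' _ hT'] at hcomp
  have hr : Module.finrank φ.fieldRange E ≤ pd hM' T' := by
    rw [h1, mul_comm (pd hM T)] at hcomp
    exact Nat.le_of_mul_le_mul_right hcomp hpos
  have hr' : Module.finrank φ'.fieldRange E ≤ pd hM T := by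
    rw [hTTE, h2] at hcomp
    exact Nat.le_of_mul_le_mul_right hcomp hpos'
  -- the places
  have hplace : ∀ l, ∃ w : Place k E, (∀ u, w.val u ≤ 1 ↔ E.val u ∈ (g l).O) ∧
      ∀ u b, Pv w u b ↔ (g l).Val (E.val u) b := fun l => (g l).exists_place hE E.val
  choose w hw1 hw2 using hplace
  have hinj : Set.InjOn w J := by
    intro l hl l' hl' hll
    apply hc hl hl'
    have h3 : Pv (w l) (φ T) (c l) := (hw2 l _ _).2 (hg l hl)
    have h4 : Pv (w l) (φ T) (c l') := by rw [hll]; exact (hw2 l' _ _).2 (hg l' hl')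
    exact Pool.Agent.Helper45.S4.res_unique _ _ _ _ h3 h4
  have h5 := card_zeros_le hE (φ a - φ' a') (by
    intro h
    apply hne'
    have := congrArg (fun u : E => (u : K)) h
    exact this) (J.image w) (by
    intro v hv
    rw [Finset.mem_image] at hv
    obtain ⟨l, hl, rfl⟩ := hv
    have h6 : Pv (w l) (φ a - φ' a') 0 := (hw2 l _ _).2 (hz l hl)
    unfold Pv at h6
    rwa [map_zero, sub_zero] at h6)
  rw [Finset.card_image_of_injOn hinj] at h5
  have h6 := pd_sub hE (φ a) (φ' a')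
  rw [pd_hom hM hE φ a, pd_hom hM' hE φ' a'] at h6
  have h7 := Nat.mul_le_mul_right (pd hM a) hr
  have h8 := Nat.mul_le_mul_right (pd hM' a') hr'
  omega

/-- **Uniqueness lemma.** Two function fields with generating tuples having many common points are
isomorphic (with corresponding generators), and some of the given places correspond. -/
theorem bz [IsAlgClosed k] (hM : IsFunctionField k M) (hM' : IsFunctionField k M') {ι : Type}
    (y : ι → M) (y' : ι → M') (hy : IntermediateField.adjoin k (Set.range y) = ⊤)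
    (hy' : IntermediateField.adjoin k (Set.range y') = ⊤) (s₀ : ι) (D : ℕ)
    (hD : ∀ s, pd hM (y s) ≤ D) (hD' : ∀ s, pd hM' (y' s) ≤ D)
    (hT : Transcendental k (y s₀)) (hT' : Transcendental k (y' s₀)) (N : ℕ)
    (hN : D * D * (D * D + D * D) < N) (w : ℕ → Place k M) (w' : ℕ → Place k M')
    (c : ℕ → ι → k) (hw : ∀ l < N, ∀ s, Pv (w l) (y s) (c l s))
    (hw' : ∀ l < N, ∀ s, Pv (w' l) (y' s) (c l s))
    (hinj : ∀ l < N, ∀ l' < N, c l s₀ = c l' s₀ → l = l') :
    ∃ α : M ≃ₐ[k] M', (∀ s, α (y s) = y' s) ∧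
      ∃ l < N, ∀ u, (w' l).val (α u) ≤ 1 ↔ (w l).val u ≤ 1 := by
  classical
  let K := AlgebraicClosure M'
  have htr : Algebra.trdeg k K = 1 := by
    have h1 := trdeg_add_eq k M' (A := K)
    rw [trdeg_eq_zero (R := M') (A := K), add_zero, hM'.2] at h1
    exact h1.symm
  set T' : K := algebraMap M' K (y' s₀) with hT'def
  have hT'K : Transcendental k T' := (transcendental_algebraMap_iff (algebraMap M' K).injective).2 hT'
  haveI := hM.finiteDimensional _ hT
  haveI := hM'.finiteDimensional _ hT'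
  -- germs and embeddings
  have hgerm : ∀ l, ∃ g : Germ k K, g.Val T' (c l s₀) := fun l => exists_germ htr T' hT'K _
  choose g hg using hgerm
  have hemb : ∀ l, ∃ ψ : M →ₐ[k] K, l < N → (ψ (y s₀) = T' ∧ ∀ u, (w l).val u ≤ 1 ↔ ψ u ∈ (g l).O) := by
    intro l
    by_cases hl : l < N
    · obtain ⟨ψ, h1, h2⟩ := exists_embedding hM (y s₀) hT T' hT'K (g l) _ (hg l) (w l) (hw l hl s₀)
      exact ⟨ψ, fun _ => ⟨h1, h2⟩⟩
    · obtain ⟨g0, -⟩ := exists_germ htr T' hT'K (0 : k)
      obtain ⟨S, hS, hsum, hpos⟩ := hM.zeros (y s₀) hT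
      have hne : S.Nonempty := by
        rw [Finset.nonempty_iff_ne_empty]
        rintro rfl
        rw [Finset.sum_empty] at hsum
        have : (Module.finrank k⟮y s₀⟯ M : ℤ) ≠ 0 := by exact_mod_cast hpos.ne'
        exact this hsum.symm
      obtain ⟨v, hv⟩ := hne
      obtain ⟨g1, hg1⟩ := exists_germ htr T' hT'K (0 : k)
      obtain ⟨ψ, h1, h2⟩ := exists_embedding hM (y s₀) hT T' hT'K g1 0 hg1 v (by
        unfold Pv
        rw [map_zero, sub_zero]
        exact (hS v).1 hv)
      exact ⟨ψ, fun h => absurd h hl⟩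
  choose ψ hψ using hemb
  have hemb' : ∀ l, ∃ ψ : M' →ₐ[k] K, l < N → (ψ (y' s₀) = T' ∧
      ∀ u, (w' l).val u ≤ 1 ↔ ψ u ∈ (g l).O) := by
    intro l
    by_cases hl : l < N
    · obtain ⟨ψ, h1, h2⟩ := exists_embedding hM' (y' s₀) hT' T' hT'K (g l) _ (hg l) (w' l)
        (hw' l hl s₀)
      exact ⟨ψ, fun _ => ⟨h1, h2⟩⟩
    · exact ⟨IsScalarTower.toAlgHom k M' K, fun h => absurd h hl⟩
  choose ψ' hψ' using hemb'
  -- pigeonhole
  obtain ⟨hfin, hcard⟩ := card_embeddings_le (k := k) (K := K) (y s₀) T'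
  obtain ⟨hfin', hcard'⟩ := card_embeddings_le (k := k) (K := K) (y' s₀) T'
  rw [← pd_eq_finrank hM _ hT] at hcard
  rw [← pd_eq_finrank hM' _ hT'] at hcard'
  have hc1 : hfin.toFinset.card ≤ D := by
    rw [← Set.ncard_eq_toFinset_card _ hfin]; exact hcard.trans (hD _)
  have hc2 : hfin'.toFinset.card ≤ D := by
    rw [← Set.ncard_eq_toFinset_card _ hfin']; exact hcard'.trans (hD' _)
  have hmaps : ∀ l ∈ Finset.range N, ((ψ l, ψ' l) : (M →ₐ[k] K) × (M' →ₐ[k] K)) ∈
      hfin.toFinset ×ˢ hfin'.toFinset := by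
    intro l hl
    rw [Finset.mem_range] at hl
    rw [Finset.mem_product, Set.Finite.mem_toFinset, Set.Finite.mem_toFinset]
    exact ⟨(hψ l hl).1, (hψ' l hl).1⟩
  obtain ⟨⟨χ, χ'⟩, hχ, hfib⟩ := Finset.exists_lt_card_fiber_of_mul_lt_card_of_maps_to hmaps
    (n := D * D + D * D) (by
      rw [Finset.card_product, Finset.card_range]
      exact lt_of_le_of_lt (Nat.mul_le_mul_right _ (Nat.mul_le_mul hc1 hc2)) hN)
  rw [Finset.mem_product, Set.Finite.mem_toFinset, Set.Finite.mem_toFinset] at hχ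
  obtain ⟨hχT, hχT'⟩ := hχ
  simp only [Set.mem_ofPred_eq] at hχT hχT'
  set J := (Finset.range N).filter fun l => (ψ l, ψ' l) = (χ, χ') with hJ
  have hJN : ∀ l ∈ J, l < N := fun l hl => Finset.mem_range.1 (Finset.mem_filter.1 hl).1
  have hJψ : ∀ l ∈ J, ψ l = χ := fun l hl => (Prod.mk.inj (Finset.mem_filter.1 hl).2).1
  have hJψ' : ∀ l ∈ J, ψ' l = χ' := fun l hl => (Prod.mk.inj (Finset.mem_filter.1 hl).2).2
  -- values
  have hval : ∀ l ∈ J, ∀ s, (g l).Val (χ (y s)) (c l s) := by
    intro l hl s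
    obtain ⟨v, hv1, hv2⟩ := (g l).exists_place hM χ
    have h1 : v = w l := by
      apply Pool.Agent.Helper45.S4.place_ext
      intro u hu
      rw [(hψ l (hJN l hl)).2 u, hJψ l hl, ← hv1]
      exact hu
    rw [← hv2, h1]
    exact hw l (hJN l hl) s
  have hval' : ∀ l ∈ J, ∀ s, (g l).Val (χ' (y' s)) (c l s) := by
    intro l hl s
    obtain ⟨v, hv1, hv2⟩ := (g l).exists_place hM' χ'
    have h1 : v = w' l := by
      apply Pool.Agent.Helper45.S4.place_ext
      intro u hu
      rw [(hψ' l (hJN l hl)).2 u, hJψ' l hl, ← hv1]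
      exact hu
    rw [← hv2, h1]
    exact hw' l (hJN l hl) s
  have heq : ∀ s, χ (y s) = χ' (y' s) := by
    intro s
    apply eq_of_many_zeros htr hM hM' χ χ' (y s₀) (y' s₀) hT hT' (hχT.trans hχT'.symm) (y s) (y' s)
      J g (fun l => c l s₀) (fun l hl l' hl' h => hinj l (hJN l hl) l' (hJN l' hl') h)
    · intro l hl; rw [hχT]; exact hg l
    · intro l hl
      have := (hval l hl s).sub (hval' l hl s)
      rwa [sub_self] at this
    · refine lt_of_le_of_lt ?_ hfib
      exact Nat.add_le_add (Nat.mul_le_mul (hD' _) (hD _)) (Nat.mul_le_mul (hD _) (hD' _))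
  -- the isomorphism
  have hrange : χ.fieldRange = χ'.fieldRange := by
    rw [AlgHom.fieldRange_eq_map, AlgHom.fieldRange_eq_map, ← hy, ← hy',
      IntermediateField.adjoin_map, IntermediateField.adjoin_map, ← Set.range_comp,
      ← Set.range_comp]
    congr 1
    ext x
    constructor
    · rintro ⟨s, rfl⟩; exact ⟨s, (heq s).symm⟩
    · rintro ⟨s, rfl⟩; exact ⟨s, heq s⟩
  have hr : χ.range = χ'.range := by
    ext x
    have h1 : x ∈ χ.fieldRange ↔ x ∈ χ'.fieldRange := by rw [hrange]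
    exact h1
  let α : M ≃ₐ[k] M' := (AlgEquiv.ofInjectiveField χ).trans
    ((Subalgebra.equivOfEq _ _ hr).trans (AlgEquiv.ofInjectiveField χ').symm)
  have hα : ∀ u, χ' (α u) = χ u := by
    intro u
    have h1 : (AlgEquiv.ofInjectiveField χ') (α u) = Subalgebra.equivOfEq _ _ hr
        (AlgEquiv.ofInjectiveField χ u) := AlgEquiv.apply_symm_apply _ _
    exact congrArg Subtype.val h1
  have hJne : J.Nonempty := by
    rw [← Finset.card_pos]
    omega
  obtain ⟨l, hl⟩ := hJne
  refine ⟨α, fun s => ?_, l, hJN l hl, fun u => ?_⟩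
  · apply χ'.toRingHom.injective
    change χ' (α (y s)) = χ' (y' s)
    rw [hα, heq]
  · rw [(hψ l (hJN l hl)).2 u, (hψ' l (hJN l hl)).2 (α u), hJψ l hl, hJψ' l hl, hα]

end Pool.Agent.Helper34.Dep
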