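import Pool.Agent.Helper34.Dep.Deg
import Pool.Agent.Helper34.Dep.Aut

/-!
# Dynamics on the tuples
-/

set_option autoImplicit false
set_option linter.style.haveILetI false

namespace Pool.Agent.Helper34.Dep

open Polynomial Pool.Agent.Helper16 Pool.Agent.Helper47.RR IntermediateField Pool.Agent.Helper64.Dep

open scoped Polynomial.Bivariate

section fK

variable {k K K' : Type} [Field k] [Field K] [Field K'] [Algebra k K] [Algebra k K']

/-- the value of the rational function `F / G` -/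
noncomputable def fK (F G : k[X]) (u : K) : K := aeval u F / aeval u G

theorem fK_map (φ : K →ₐ[k] K') (F G : k[X]) (u : K) : φ (fK F G u) = fK F G (φ u) := by
  unfold fK
  rw [map_div₀, ← Polynomial.aeval_algHom_apply, ← Polynomial.aeval_algHom_apply]

theorem fK_iterate_map (φ : K →ₐ[k] K') (F G : k[X]) (n : ℕ) (u : K) :
    φ ((fK F G)^[n] u) = (fK F G)^[n] (φ u) := by
  induction n with
  | zero => rfl
  | succ n ih => rw [Function.iterate_succ_apply', fK_map, ih, Function.iterate_succ_apply']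

theorem val_fK {g : Germ k K} {F G : k[X]} {u : K} {a : k} (h : g.Val u a) (hG : G.eval a ≠ 0) :
    g.Val (fK F G u) (F.eval a / G.eval a) := (h.aeval F).div (h.aeval G) hG

theorem val_iterate {g : Germ k K} {F G : k[X]} {x : ℕ → k} (hG : ∀ j, G.eval (x j) ≠ 0)
    (hx : ∀ j, x (j + 1) = F.eval (x j) / G.eval (x j)) {u : K} {j : ℕ} (h : g.Val u (x j))
    (n : ℕ) : g.Val ((fK F G)^[n] u) (x (j + n)) := by
  induction n with
  | zero => exact h
  | succ n ih =>
    rw [Function.iterate_succ_apply', ← add_assoc, hx]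
    exact val_fK ih (hG _)

theorem pd_fK [IsAlgClosed k] (hK : IsFunctionField k K) (F G : k[X]) (d : ℕ)
    (hF : F.natDegree ≤ d) (hG : G.natDegree ≤ d) (u : K) :
    pd hK (fK F G u) ≤ 2 * d * pd hK u := by
  unfold fK
  rw [div_eq_mul_inv]
  refine (pd_mul hK _ _).trans ?_
  rw [pd_inv]
  have h1 := (pd_aeval hK F u).trans (Nat.mul_le_mul_right (pd hK u) hF)
  have h2 := (pd_aeval hK G u).trans (Nat.mul_le_mul_right (pd hK u) hG)
  have : 2 * d * pd hK u = d * pd hK u + d * pd hK u := by ring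
  omega

theorem pd_fK_iterate [IsAlgClosed k] (hK : IsFunctionField k K) (F G : k[X]) (d : ℕ)
    (hF : F.natDegree ≤ d) (hG : G.natDegree ≤ d) (u : K) (n : ℕ) :
    pd hK ((fK F G)^[n] u) ≤ (2 * d) ^ n * pd hK u := by
  induction n with
  | zero => simp
  | succ n ih =>
    rw [Function.iterate_succ_apply']
    refine (pd_fK hK F G d hF hG _).trans ?_
    calc 2 * d * pd hK ((fK F G)^[n] u) ≤ 2 * d * ((2 * d) ^ n * pd hK u) :=
          Nat.mul_le_mul_left _ ih
      _ = (2 * d) ^ (n + 1) * pd hK u := by ring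

end fK

variable {k K ι : Type} [Field k] [Field K] [Algebra k K] {m : ℕ}

theorem dyn [Fintype ι] [IsAlgClosed k] [IsAlgClosed K] (htr : Algebra.trdeg k K = 1) (T : K)
    (hT : Transcendental k T) (D : TreeData k ι m) (hm : 1 ≤ m) (F G : ι → k[X]) (d : ℕ)
    (hd : 1 ≤ d) (hF : ∀ s, (F s).natDegree ≤ d) (hG : ∀ s, (G s).natDegree ≤ d)
    (x : ι → ℕ → k) (hGx : ∀ s j, (G s).eval (x s j) ≠ 0)
    (hx : ∀ s j, x s (j + 1) = (F s).eval (x s j) / (G s).eval (x s j))
    (N B C : ℕ) (hB : m ^ Fintype.card ι ≤ B)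
    (hC : 2 * m * ((2 * d) ^ B * m ^ (2 * Fintype.card ι)) ≤ C)
    (hinj : ∀ i i', i ≤ N → i' ≤ N → x D.s₀ i = x D.s₀ i' → i = i') (J₀ : Finset ℕ)
    (hJN : ∀ j ∈ J₀, j + B ≤ N)
    (hrel : ∀ j ∈ J₀, ∀ n ≤ B, ∀ s, s ≠ D.s₀ →
      (D.Q s).evalEval (x (D.par s) (j + n)) (x s (j + n)) = 0)
    (hcard : B * (C + 1) < J₀.card) :
    ∃ y : ι → K, IsTup D T y ∧ ∃ r a : ℕ, 1 ≤ r ∧ r ≤ B ∧ a ≤ B ∧ ∃ j ∈ J₀,
      (∃ R : K ≃ₐ[k] K, ∀ s, R (y s) = (fK (F s) (G s))^[r] (y s)) ∧
      ∃ g : Germ k K, ∀ s, g.Val (y s) (x s (j + a)) := by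
  classical
  obtain ⟨hfin, hncard⟩ := tup_finite (D := D) hT hm
  -- germs and tuples
  have h1 : ∀ j, ∃ (g : Germ k K) (y : ι → K), j ∈ J₀ → (IsTup D T y ∧ ∀ s, g.Val (y s) (x s j)) := by
    intro j
    obtain ⟨g, hg⟩ := exists_germ htr T hT (x D.s₀ j)
    by_cases hj : j ∈ J₀
    · obtain ⟨y, hy1, hy2⟩ := exists_tup (D := D) g (fun s => x s j) hg
        (fun s hs => by simpa using hrel j hj 0 (Nat.zero_le _) s hs)
      exact ⟨g, y, fun _ => ⟨hy1, hy2⟩⟩
    · exact ⟨g, fun _ => T, fun h => absurd h hj⟩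
  choose g t ht using h1
  -- pigeonhole
  have hmaps : ∀ j ∈ J₀, t j ∈ hfin.toFinset := fun j hj => by
    rw [Set.Finite.mem_toFinset]; exact (ht j hj).1
  have hcardT : hfin.toFinset.card ≤ B := by
    rw [← Set.ncard_eq_toFinset_card _ hfin]; exact hncard.trans hB
  obtain ⟨y₀, hy₀, hfib⟩ := Finset.exists_lt_card_fiber_of_mul_lt_card_of_maps_to hmaps
    (n := C + 1) (lt_of_le_of_lt (Nat.mul_le_mul_right _ hcardT) hcard)
  rw [Set.Finite.mem_toFinset] at hy₀
  have hy₀' : IsTup D T y₀ := hy₀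
  set J := J₀.filter fun j => t j = y₀ with hJ
  have hJJ : ∀ j ∈ J, j ∈ J₀ := fun j hj => (Finset.mem_filter.1 hj).1
  have hval0 : ∀ j ∈ J, ∀ s, (g j).Val (y₀ s) (x s j) := by
    intro j hj s
    have := (ht j (hJJ j hj)).2 s
    rwa [(Finset.mem_filter.1 hj).2] at this
  -- the iterates
  let u : ℕ → ι → K := fun n s => (fK (F s) (G s))^[n] (y₀ s)
  have hval : ∀ j ∈ J, ∀ n s, (g j).Val (u n s) (x s (j + n)) := fun j hj n s =>
    val_iterate (hGx s) (hx s) (hval0 j hj s) n
  -- the function field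
  obtain ⟨hM, hpd⟩ := tup_field htr hT hy₀' hm
  set E := IntermediateField.adjoin k (Set.range y₀) with hE
  have hyE : ∀ s, y₀ s ∈ E := fun s => IntermediateField.subset_adjoin k _ ⟨s, rfl⟩
  let z : ι → E := fun s => ⟨y₀ s, hyE s⟩
  have hpdz : ∀ s, pd hM (z s) ≤ m ^ (2 * Fintype.card ι) := hpd
  let uE : ℕ → ι → E := fun n s => (fK (F s) (G s))^[n] (z s)
  have huE : ∀ n s, E.val (uE n s) = u n s := fun n s => fK_iterate_map E.val _ _ n (z s)
  have hplace : ∀ j, ∃ w : Place k E, (∀ v, w.val v ≤ 1 ↔ E.val v ∈ (g j).O) ∧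
      ∀ v b, Pv w v b ↔ (g j).Val (E.val v) b := fun j => (g j).exists_place hM E.val
  choose w hw1 hw2 using hplace
  have hwinj : Set.InjOn w J := by
    intro j hj j' hj' hjj
    have h3 : Pv (w j) (z D.s₀) (x D.s₀ j) := (hw2 j _ _).2 (hval0 j hj _)
    have h4 : Pv (w j) (z D.s₀) (x D.s₀ j') := by rw [hjj]; exact (hw2 j' _ _).2 (hval0 j' hj' _)
    refine hinj j j' ?_ ?_ (Pool.Agent.Helper45.S4.res_unique _ _ _ _ h3 h4)
    · have := hJN j (hJJ j hj); omega
    · have := hJN j' (hJJ j' hj'); omega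
  have hrel' : ∀ n ≤ B, ∀ s, s ≠ D.s₀ → (D.Q s).aevalAeval (u n (D.par s)) (u n s) = 0 := by
    intro n hn s hs
    have hval' : ∀ j ∈ J, (g j).Val ((D.Q s).aevalAeval (u n (D.par s)) (u n s)) 0 := by
      intro j hj
      have := (hval j hj n (D.par s)).aevalAeval (hval j hj n s) (D.Q s)
      rwa [hrel j (hJJ j hj) n hn s hs] at this
    by_contra hne
    have hev : E.val ((D.Q s).aevalAeval (uE n (D.par s)) (uE n s)) =
        (D.Q s).aevalAeval (u n (D.par s)) (u n s) := by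
      rw [aevalAeval_eq, aevalAeval_eq]
      have h5 : ((aeval (u n (D.par s)) : k[X] →ₐ[k] K) : k[X] →+* K) =
          (E.val : E →+* K).comp ((aeval (uE n (D.par s)) : k[X] →ₐ[k] E) : k[X] →+* E) := by
        apply Polynomial.ringHom_ext
        · intro c
          simp
        · simp only [RingHom.coe_coe, aeval_X, RingHom.coe_comp, Function.comp_apply]
          exact (huE n _).symm
      rw [h5, ← Polynomial.map_map, ← huE n s]
      exact ((Polynomial.eval_map _ _).trans (Polynomial.eval₂_at_apply _ _)).symm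
    have h6 := card_zeros_le hM ((D.Q s).aevalAeval (uE n (D.par s)) (uE n s)) (by
      intro h
      rw [h, map_zero] at hev
      exact hne hev.symm) (J.image w) (by
      intro v hv
      rw [Finset.mem_image] at hv
      obtain ⟨j, hj, rfl⟩ := hv
      have h7 : Pv (w j) ((D.Q s).aevalAeval (uE n (D.par s)) (uE n s)) 0 := by
        rw [hw2, hev]; exact hval' j hj
      unfold Pv at h7
      rwa [map_zero, sub_zero] at h7)
    rw [Finset.card_image_of_injOn hwinj] at h6
    have h8 := pd_aevalAeval hM (D.Q s) m (D.deg s hs) (uE n (D.par s)) (uE n s)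
    have h9 : ∀ s', pd hM (uE n s') ≤ (2 * d) ^ B * m ^ (2 * Fintype.card ι) := by
      intro s'
      refine (pd_fK_iterate hM (F s') (G s') d (hF s') (hG s') (z s') n).trans ?_
      exact Nat.mul_le_mul (Nat.pow_le_pow_right (by omega) hn) (hpdz s')
    have h10 := Nat.mul_le_mul_left m (h9 (D.par s))
    have h11 := Nat.mul_le_mul_left m (h9 s)
    have h12 : 2 * m * ((2 * d) ^ B * m ^ (2 * Fintype.card ι)) =
      m * ((2 * d) ^ B * m ^ (2 * Fintype.card ι)) + m * ((2 * d) ^ B * m ^ (2 * Fintype.card ι)) :=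
      by ring
    omega
  -- transcendence
  have htru : ∀ n ≤ B, Transcendental k (u n D.s₀) := by
    intro n hn halg
    obtain ⟨c, hc⟩ : ∃ c : k, algebraMap k K c = u n D.s₀ := by
      have h2 := IsAlgClosed.degree_eq_one_of_irreducible k (minpoly.irreducible halg.isIntegral)
      obtain ⟨c, hc⟩ := minpoly.mem_range_of_degree_eq_one k (u n D.s₀) h2
      exact ⟨c, hc⟩
    obtain ⟨j, hj, j', hj', hne⟩ := Finset.one_lt_card.1 (show 1 < J.card by omega)
    have h3 : ∀ j ∈ J, x D.s₀ (j + n) = c := by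
      intro j hj
      have h4 := hval j hj n D.s₀
      rw [← hc] at h4
      exact h4.uniq ((g j).val_const c)
    have h5 := hJN j (hJJ j hj)
    have h6 := hJN j' (hJJ j' hj')
    have := hinj (j + n) (j' + n) (by omega) (by omega) ((h3 j hj).trans (h3 j' hj').symm)
    omega
  have hρ : ∀ n, ∃ ρ : K ≃ₐ[k] K, n ≤ B → ρ T = u n D.s₀ := by
    intro n
    by_cases hn : n ≤ B
    · obtain ⟨ρ, hρ⟩ := exists_aut htr T hT (u n D.s₀) (htru n hn)
      exact ⟨ρ, fun _ => hρ⟩
    · exact ⟨AlgEquiv.refl, fun h => absurd h hn⟩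
  choose ρ hρ using hρ
  have htup : ∀ n ≤ B, IsTup D T (fun s => (ρ n).symm (u n s)) := by
    intro n hn
    refine ⟨?_, fun s hs => ?_⟩
    · rw [← hρ n hn, AlgEquiv.symm_apply_apply]
    · have h1 : (ρ n).symm ((D.Q s).aevalAeval (u n (D.par s)) (u n s)) =
          (D.Q s).aevalAeval ((ρ n).symm (u n (D.par s))) ((ρ n).symm (u n s)) := by
        rw [aevalAeval_eq, aevalAeval_eq]
        have h5 : ((aeval ((ρ n).symm (u n (D.par s))) : k[X] →ₐ[k] K) : k[X] →+* K) =
            ((ρ n).symm : K →+* K).comp ((aeval (u n (D.par s)) : k[X] →ₐ[k] K) : k[X] →+* K) := by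
          apply Polynomial.ringHom_ext
          · intro c
            simp
          · simp
        rw [h5, ← Polynomial.map_map]
        exact ((Polynomial.eval_map _ _).trans
          (Polynomial.eval₂_at_apply ((ρ n).symm : K →+* K) (u n s))).symm
      rw [← h1, hrel' n hn s hs, map_zero]
  -- second pigeonhole
  obtain ⟨a, ha, b, hb, hab, heq⟩ := Finset.exists_ne_map_eq_of_card_lt_of_maps_to
    (s := Finset.range (B + 1)) (t := hfin.toFinset) (f := fun n => fun s => (ρ n).symm (u n s))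
    (by rw [Finset.card_range]; omega)
    (fun n hn => by
      rw [Finset.mem_coe, Set.Finite.mem_toFinset]
      exact htup n (by
        have := Finset.mem_range.1 (Finset.mem_coe.1 hn)
        omega))
  rw [Finset.mem_range] at ha hb
  have main : ∀ a b, a < b → b < B + 1 →
      (fun s => (ρ a).symm (u a s)) = (fun s => (ρ b).symm (u b s)) →
      ∃ y : ι → K, IsTup D T y ∧ ∃ r a : ℕ, 1 ≤ r ∧ r ≤ B ∧ a ≤ B ∧ ∃ j ∈ J₀,
      (∃ R : K ≃ₐ[k] K, ∀ s, R (y s) = (fK (F s) (G s))^[r] (y s)) ∧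
      ∃ g : Germ k K, ∀ s, g.Val (y s) (x s (j + a)) := by
    intro a b hab hb heq
    obtain ⟨j, hj⟩ : J.Nonempty := Finset.card_pos.1 (by omega)
    refine ⟨fun s => (ρ a).symm (u a s), htup a (by omega), b - a, a, by omega, by omega, by omega,
      j, hJJ j hj, ⟨(ρ b).trans (ρ a).symm, fun s => ?_⟩, (g j).comap (ρ a : K →ₐ[k] K), fun s => ?_⟩
    · have h1 : (ρ a).symm (u a s) = (ρ b).symm (u b s) := congrFun heq s
      change (ρ a).symm ((ρ b) ((ρ a).symm (u a s))) =
        (fK (F s) (G s))^[b - a] ((ρ a).symm (u a s))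
      rw [h1, AlgEquiv.apply_symm_apply, ← h1]
      have h2 : u b s = (fK (F s) (G s))^[b - a] (u a s) := by
        change (fK (F s) (G s))^[b] (y₀ s) = (fK (F s) (G s))^[b - a] ((fK (F s) (G s))^[a] (y₀ s))
        rw [← Function.iterate_add_apply]
        congr 2
        omega
      rw [h2]
      exact fK_iterate_map ((ρ a).symm : K →ₐ[k] K) (F s) (G s) (b - a) (u a s)
    · rw [Germ.comap_val]
      have : (ρ a : K →ₐ[k] K) ((ρ a).symm (u a s)) = u a s := (ρ a).apply_symm_apply _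
      rw [this]
      exact hval j hj a s
  rcases lt_or_gt_of_ne hab with h | h
  · exact main a b h hb heq
  · exact main b a h ha heq.symm

end Pool.Agent.Helper34.Dep
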