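import Pool.Agent.Helper34.Dep.Tw
import Pool.Agent.Helper34.Dep.Dyn
import Pool.Agent.Helper93.RatHev

/-!
# The curve attached to a family of dependent orbits, with its dynamics and symmetries
-/

set_option autoImplicit false
set_option linter.style.haveILetI false

namespace Pool.Agent.Helper34.Dep

open Polynomial Pool.Agent.Helper16 Pool.Agent.Helper47.RR IntermediateField Pool.Agent.Helper64.Dep
  Pool.Agent.Helper93.RatODE Pool.Agent.Helper47.EN

open scoped Polynomial.Bivariate

section aux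

variable {k K : Type} [Field k] [Field K] [Algebra k K]

theorem iter_fK (F G : k[X]) (d : ℕ) (hF : F.natDegree ≤ d) (hG : G.natDegree ≤ d) (u : K) (n : ℕ)
    (h : ∀ i < n, aeval ((fK F G)^[i] u) G ≠ 0) :
    aeval u (iter F G d n).2 ≠ 0 ∧
      (fK F G)^[n] u * aeval u (iter F G d n).2 = aeval u (iter F G d n).1 := by
  induction n with
  | zero => simp [iter]
  | succ n ih =>
    obtain ⟨h1, h2⟩ := ih fun i hi => h i (by omega)
    have h3 := h n (by omega)
    have h4 : aeval u (iter F G d n).1 / aeval u (iter F G d n).2 = (fK F G)^[n] u := by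
      rw [← h2, mul_div_assoc, div_self h1, mul_one]
    have e1 : aeval u (iter F G d (n + 1)).1 =
        aeval u (iter F G d n).2 ^ d * aeval ((fK F G)^[n] u) F := by
      change aeval u (hev F d (iter F G d n).1 (iter F G d n).2) = _
      rw [hev_map, hev_eq F d hF _ _ h1, h4]
    have e2 : aeval u (iter F G d (n + 1)).2 =
        aeval u (iter F G d n).2 ^ d * aeval ((fK F G)^[n] u) G := by
      change aeval u (hev G d (iter F G d n).1 (iter F G d n).2) = _
      rw [hev_map, hev_eq G d hG _ _ h1, h4]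
    refine ⟨?_, ?_⟩
    · rw [e2]; exact mul_ne_zero (pow_ne_zero _ h1) h3
    · rw [e1, e2, Function.iterate_succ_apply']
      change aeval ((fK F G)^[n] u) F / aeval ((fK F G)^[n] u) G * _ = _
      field_simp

/-- semilinear maps and rational functions -/
theorem fK_semilinear (g : k ≃+* k) (g' : K ≃+* K)
    (hg : ∀ a, g' (algebraMap k K a) = algebraMap k K (g a)) (F G : k[X]) (u : K) (n : ℕ) :
    g' ((fK F G)^[n] u) = (fK (F.map (g : k →+* k)) (G.map (g : k →+* k)))^[n] (g' u) := by
  have h1 : ∀ (p : k[X]) (v : K), g' (aeval v p) = aeval (g' v) (p.map (g : k →+* k)) := by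
    intro p v
    have h2 : (g' : K →+* K).comp (algebraMap k K) = (algebraMap k K).comp (g : k →+* k) := by
      ext a; exact hg a
    have h3 := Polynomial.hom_eval₂ p (algebraMap k K) (g' : K →+* K) v
    rw [h2] at h3
    rw [aeval_def, aeval_def, eval₂_map]
    exact h3
  induction n with
  | zero => rfl
  | succ n ih =>
    rw [Function.iterate_succ_apply', Function.iterate_succ_apply', ← ih]
    unfold fK
    rw [map_div₀, h1, h1]

/-- finitely many places with a given value -/
theorem finite_value (hK : IsFunctionField k K) (z : K) (hz : Transcendental k z) (c : k) :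
    {v : Place k K | Pv v z c}.Finite := by
  have h1 : Transcendental k (z - algebraMap k K c) := by
    intro h
    apply hz
    have h2 := h.add (isAlgebraic_algebraMap (R := k) (A := K) c)
    rwa [sub_add_cancel] at h2
  obtain ⟨S, hS, -, -⟩ := hK.zeros _ h1
  exact S.finite_toSet.subset fun v hv => (hS v).2 hv

end aux

/-- **The core theorem.** -/
theorem core {k ι : Type} [Field k] [IsAlgClosed k] [Fintype ι] {m n d : ℕ} (hm : 1 ≤ m)
    (hd : 1 ≤ d) (hι : Fintype.card ι ≤ n) (D : TreeData k ι m) (F G : ι → k[X])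
    (hF : ∀ s, (F s).natDegree ≤ d) (hG : ∀ s, (G s).natDegree ≤ d)
    (x : ι → ℕ → k) (hGx : ∀ s j, (G s).eval (x s j) ≠ 0)
    (hx : ∀ s j, x s (j + 1) = (F s).eval (x s j) / (G s).eval (x s j))
    (hfin : (Set.range (x D.s₀)).Finite)
    (B C₂ Dp NB e C₃ N N' : ℕ) (hB : B = m ^ n)
    (hC₂ : C₂ = 2 * m * ((2 * d) ^ B * m ^ (2 * n))) (hDp : Dp = m ^ (2 * n))
    (hNB : NB = Dp * Dp * (Dp * Dp + Dp * Dp) + 1) (hC₃ : C₃ = B * (C₂ + 1) + (B + 1) * e)
    (hN : C₃ + B + (NB + N' + 1) * B ≤ N)
    (hinj : ∀ i i', i ≤ N → i' ≤ N → x D.s₀ i = x D.s₀ i' → i = i')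
    (Exc : Finset ℕ) (hExc : Exc.card ≤ e)
    (hrel : ∀ j ≤ N, j ∉ Exc → ∀ s, s ≠ D.s₀ → (D.Q s).evalEval (x (D.par s) j) (x s j) = 0) :
    ∃ (M : Type) (_ : Field M) (_ : Algebra k M) (hM : IsFunctionField k M) (Φ : M →ₐ[k] M)
      (z : M) (r j₀ : ℕ) (w : ℕ → Place k M),
      1 ≤ r ∧ r ≤ B ∧ j₀ ≤ C₃ + B + NB * B ∧ Transcendental k z ∧
      Module.finrank k⟮z⟯ M ≤ Dp ∧
      Φ z * aeval z (iter (F D.s₀) (G D.s₀) d r).2 = aeval z (iter (F D.s₀) (G D.s₀) d r).1 ∧
      (∀ l, w (l + 1) = plc hM hM Φ (w l)) ∧ (Set.range w).Finite ∧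
      (∀ l l', l ≤ N' → l' ≤ N' → w l = w l' → l = l') ∧
      (∀ l, Pv (w l) z (x D.s₀ (j₀ + l * r))) ∧
      ∀ (g : k ≃+* k) (π : Equiv.Perm ι), (∀ s j, x (π s) j = g (x s j)) →
        (∀ s, F (π s) = (F s).map (g : k →+* k)) → (∀ s, G (π s) = (G s).map (g : k →+* k)) →
        ∃ g' : M ≃+* M, (∀ c, g' (algebraMap k M c) = algebraMap k M (g c)) ∧
          (∀ u, g' (Φ u) = Φ (g' u)) ∧ ∀ l u, (w l).val (g' u) = (w l).val u := by
  classical
  let K := AlgebraicClosure (RatFunc k)
  have htr : Algebra.trdeg k K = 1 := by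
    have h2 := trdeg_add_eq k (RatFunc k) (A := K)
    rw [trdeg_eq_zero (R := RatFunc k) (A := K), add_zero,
      Pool.Agent.Helper16.trdeg_ratFunc] at h2
    exact h2.symm
  have hinjK : Function.Injective (algebraMap (RatFunc k) K) := (algebraMap (RatFunc k) K).injective
  obtain ⟨T, hT⟩ : ∃ T : K, Transcendental k T :=
    ⟨algebraMap (RatFunc k) K RatFunc.X,
      (transcendental_algebraMap_iff hinjK).2 RatFunc.transcendental_X⟩
  -- the good indices
  set J₀ := (Finset.range (C₃ + 1)).filter fun j => ∀ i ≤ B, j + i ∉ Exc with hJ₀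
  have hbad : (Finset.range (C₃ + 1)).card ≤ J₀.card + (B + 1) * e := by
    have h1 : Finset.range (C₃ + 1) ⊆ J₀ ∪ (Finset.range (B + 1) ×ˢ Exc).image
        (fun p => p.2 - p.1) := by
      intro j hj
      rw [Finset.mem_union]
      by_cases h : ∀ i ≤ B, j + i ∉ Exc
      · exact Or.inl (Finset.mem_filter.2 ⟨hj, h⟩)
      · right
        push Not at h
        obtain ⟨i, hi, hji⟩ := h
        rw [Finset.mem_image]
        exact ⟨(i, j + i), Finset.mem_product.2 ⟨Finset.mem_range.2 (by simp only; omega), hji⟩,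
          by simp⟩
    refine (Finset.card_le_card h1).trans ((Finset.card_union_le _ _).trans ?_)
    refine Nat.add_le_add_left (Finset.card_image_le.trans ?_) _
    rw [Finset.card_product, Finset.card_range]
    exact Nat.mul_le_mul_left _ hExc
  rw [Finset.card_range] at hbad
  have hJcard : B * (C₂ + 1) < J₀.card := by omega
  have hJle : ∀ j ∈ J₀, j ≤ C₃ := fun j hj => by
    have := Finset.mem_range.1 (Finset.mem_filter.1 hj).1
    omega
  have hpow : (NB + N' + 1) * B = NB * B + N' * B + B := by ring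
  obtain ⟨y, hy, r, a, hr1, hrB, haB, j, hj, ⟨R, hR⟩, g₀, hg₀⟩ := dyn htr T hT D hm F G d hd hF hG x
    hGx hx N B C₂ (by rw [hB]; exact Nat.pow_le_pow_right hm hι)
    (by
      rw [hC₂]
      refine Nat.mul_le_mul_left _ (Nat.mul_le_mul_left _ ?_)
      exact Nat.pow_le_pow_right hm (by omega)) hinj J₀ (fun j hj => by
      have := hJle j hj
      omega) (fun j hj i hi s hs => by
      have h1 := hJle j hj
      exact hrel (j + i) (by omega) ((Finset.mem_filter.1 hj).2 i hi) s hs) hJcard
  have hjC := hJle j hj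
  -- the function field
  obtain ⟨hM, hpd⟩ := tup_field htr hT hy hm
  set E := IntermediateField.adjoin k (Set.range y) with hE
  have hyE : ∀ s, y s ∈ E := fun s => IntermediateField.subset_adjoin k _ ⟨s, rfl⟩
  let z : ι → E := fun s => ⟨y s, hyE s⟩
  have hpdz : ∀ s, pd hM (z s) ≤ Dp := fun s => (hpd s).trans (by
    rw [hDp]
    exact Nat.pow_le_pow_right hm (by omega))
  have hztr : ∀ s, Transcendental k (z s) := by
    intro s h
    exact hy.transcendental hT s (h.algebraMap (A := K))
  have hztop : IntermediateField.adjoin k (Set.range z) = ⊤ := by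
    apply IntermediateField.map_injective E.val
    rw [IntermediateField.adjoin_map, ← Set.range_comp, ← AlgHom.fieldRange_eq_map,
      IntermediateField.fieldRange_val]
    rfl
  have hRz : ∀ s, R (y s) = E.val ((fK (F s) (G s))^[r] (z s)) := by
    intro s
    rw [hR, fK_iterate_map]
    rfl
  have hRE : ∀ v : E, R (v : K) ∈ E := by
    have h1 : E.map (R : K →ₐ[k] K) ≤ E := by
      rw [hE, IntermediateField.adjoin_map, IntermediateField.adjoin_le_iff]
      rintro _ ⟨_, ⟨s, rfl⟩, rfl⟩
      change R (y s) ∈ _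
      rw [hRz]
      exact SetLike.coe_mem _
    intro v
    exact h1 ⟨(v : K), v.2, rfl⟩
  let Φ : E →ₐ[k] E := ((R : K →ₐ[k] K).comp E.val).codRestrict E.toSubalgebra hRE
  have hΦz : ∀ s, Φ (z s) = (fK (F s) (G s))^[r] (z s) := fun s => Subtype.ext (hRz s)
  -- the places
  obtain ⟨w₀, hw₀1, hw₀2⟩ := g₀.exists_place hM E.val
  let w : ℕ → Place k E := fun l => Nat.rec w₀ (fun _ v => plc hM hM Φ v) l
  have hwsucc : ∀ l, w (l + 1) = plc hM hM Φ (w l) := fun l => rfl
  have hPlc : ∀ (v : Place k E) (u : E) (b : k), Pv v (Φ u) b → Pv (plc hM hM Φ v) u b := by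
    intro v u b h
    unfold Pv at h ⊢
    rw [plc_val_lt_one, map_sub, AlgHom.commutes]
    exact h
  have hval : ∀ l s, Pv (w l) (z s) (x s (j + a + l * r)) := by
    intro l
    induction l with
    | zero =>
      intro s
      rw [zero_mul, add_zero]
      exact (hw₀2 _ _).2 (hg₀ s)
    | succ l ih =>
      intro s
      rw [hwsucc]
      apply hPlc
      rw [hΦz]
      obtain ⟨g, -, hg⟩ := exists_germ_place hM (w l)
      rw [hg]
      have h1 := val_iterate (hGx s) (hx s) ((hg _ _).1 (ih s)) r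
      have h2 : j + a + l * r + r = j + a + (l + 1) * r := by ring
      rwa [h2] at h1
  have hrle : ∀ l, l * r ≤ l * B := fun l => Nat.mul_le_mul_left _ hrB
  have hwinj : ∀ l l', l ≤ NB + N' → l' ≤ NB + N' →
      x D.s₀ (j + a + l * r) = x D.s₀ (j + a + l' * r) → l = l' := by
    intro l l' hl hl' h
    have h1 : (NB + N') * B = NB * B + N' * B := by ring
    have h2 := (hrle l).trans (Nat.mul_le_mul_right B hl)
    have h3 := (hrle l').trans (Nat.mul_le_mul_right B hl')
    have h4 := hinj (j + a + l * r) (j + a + l' * r) (by omega) (by omega) h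
    have h5 : l * r = l' * r := by omega
    exact Nat.eq_of_mul_eq_mul_right hr1 h5
  refine ⟨E, inferInstance, inferInstance, hM, Φ, z D.s₀, r, j + a + NB * r, fun l => w (l + NB),
    hr1, hrB, ?_, hztr _, ?_, ?_, ?_, ?_, ?_, ?_, ?_⟩
  · have := hrle NB
    omega
  · rw [← pd_eq_finrank hM _ (hztr _)]
    exact hpdz _
  · rw [hΦz]
    refine (iter_fK (F D.s₀) (G D.s₀) d (hF _) (hG _) (z D.s₀) r fun i hi h0 => ?_).2
    obtain ⟨g, -, hg⟩ := exists_germ_place hM (w 0)
    have h1 := val_iterate (hGx D.s₀) (hx D.s₀) ((hg _ _).1 (hval 0 D.s₀)) i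
    have h2 := h1.aeval (G D.s₀)
    rw [h0] at h2
    exact hGx D.s₀ _ (h2.uniq g.val_zero)
  · intro l
    have : l + 1 + NB = (l + NB) + 1 := by ring
    change w (l + 1 + NB) = _
    rw [this]
  · have h1 : Set.range (fun l => w (l + NB)) ⊆
        ⋃ c ∈ Set.range (x D.s₀), {v : Place k E | Pv v (z D.s₀) c} := by
      rintro _ ⟨l, rfl⟩
      rw [Set.mem_iUnion₂]
      exact ⟨_, ⟨_, rfl⟩, hval (l + NB) D.s₀⟩
    exact (hfin.biUnion fun c _ => finite_value hM _ (hztr _) c).subset h1
  · intro l l' hl hl' h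
    have h1 := hval (l + NB) D.s₀
    have h2 := hval (l' + NB) D.s₀
    have h3 : w (l + NB) = w (l' + NB) := h
    rw [h3] at h1
    have h4 := hwinj (l + NB) (l' + NB) (by omega) (by omega)
      (Pool.Agent.Helper45.S4.res_unique _ _ _ _ h1 h2)
    omega
  · intro l
    have h1 := hval (l + NB) D.s₀
    have h2 : j + a + (l + NB) * r = j + a + NB * r + l * r := by ring
    rwa [h2] at h1
  · intro g π hπx hπF hπG
    obtain ⟨g', hg'c, hg'z, l₁, hl₁, hw₁⟩ := exists_semilinear hM z hztop D.s₀ Dp hpdz hztr NB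
      (by omega) w (fun l s => x s (j + a + l * r)) (fun l _ s => hval l s)
      (fun l hl l' hl' h => hwinj l l' (by omega) (by omega) h) g π
      (fun l _ s => hπx s _)
    have hcomm : ∀ u, g' (Φ u) = Φ (g' u) := by
      have h1 : (⊤ : Subfield E) ≤ RingHom.eqLocusField ((g' : E →+* E).comp (Φ : E →+* E))
          ((Φ : E →+* E).comp (g' : E →+* E)) := by
        have h2 : (⊤ : Subfield E) = (IntermediateField.adjoin k (Set.range z)).toSubfield := by
          rw [hztop]; rfl
        rw [h2]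
        change Subfield.closure _ ≤ _
        rw [Subfield.closure_le]
        rintro u (⟨c, rfl⟩ | ⟨s, rfl⟩)
        · change g' (Φ (algebraMap k E c)) = Φ (g' (algebraMap k E c))
          rw [AlgHom.commutes, hg'c, AlgHom.commutes]
        · change g' (Φ (z s)) = Φ (g' (z s))
          rw [hΦz, fK_semilinear g g' hg'c, hg'z, hΦz, hπF, hπG]
      intro u
      exact h1 (Subfield.mem_top u)
    refine ⟨g', hg'c, hcomm, ?_⟩
    have hle : ∀ l, l₁ ≤ l → ∀ u, (w l).val (g' u) ≤ 1 ↔ (w l).val u ≤ 1 := by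
      intro l hl
      induction l, hl using Nat.le_induction with
      | base => exact hw₁
      | succ l _ ih =>
        intro u
        rw [hwsucc, plc_val_le_one, plc_val_le_one, ← hcomm, ih]
    intro l u
    have h1 : tw g' g hg'c (w (l + NB)) = w (l + NB) := by
      apply Pool.Agent.Helper45.S4.place_ext
      intro v hv
      rw [tw_val] at hv
      exact (hle (l + NB) (by omega) v).1 hv
    change (w (l + NB)).val (g' u) = (w (l + NB)).val u
    rw [← tw_val g' g hg'c (w (l + NB)) u, h1]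

end Pool.Agent.Helper34.Dep
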