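import Pool.Agent.Helper47.EN.Defs
import Pool.Agent.Helper61.BBGermA

/-!
# Dependent pairs: definitions (germs, values, bidegree, pole degree)
-/

set_option autoImplicit false
set_option linter.style.haveILetI false

namespace Pool.Agent.Helper34.Dep

open Polynomial Pool.Agent.Helper16 Pool.Agent.Helper47.RR

open scoped Polynomial.Bivariate

/-- bidegree at most `m` in each variable -/
def BiDeg {R : Type} [CommRing R] (P : R[X][Y]) (m : ℕ) : Prop :=
  P.natDegree ≤ m ∧ ∀ i, (P.coeff i).natDegree ≤ m

/-- A valuation ring containing the constants and with residue field the constants. -/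
structure Germ (k K : Type) [Field k] [Field K] [Algebra k K] where
  /-- the valuation ring -/
  O : ValuationSubring K
  /-- the residue map -/
  red : O →+* k
  red_const : ∀ a : k, ∃ h : algebraMap k K a ∈ O, red ⟨algebraMap k K a, h⟩ = a
  red_zero : ∀ x : O, red x = 0 ↔ x ∈ IsLocalRing.maximalIdeal O

/-- `x` is regular with value `a` -/
def Germ.Val {k K : Type} [Field k] [Field K] [Algebra k K] (g : Germ k K) (x : K) (a : k) :
    Prop := ∃ h : x ∈ g.O, g.red ⟨x, h⟩ = a

/-- `x` is regular at the place `w` with value `a` -/
def Pv {k M : Type} [Field k] [Field M] [Algebra k M] (w : Place k M) (x : M) (a : k) : Prop :=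
  w.val (x - algebraMap k M a) < 1

/-- the pole degree of a function -/
noncomputable def pd {k M : Type} [Field k] [Field M] [Algebra k M] (hM : IsFunctionField k M)
    (h : M) : ℕ :=
  ∑ v ∈ (prin hM h).support, (-(v.ord h)).toNat

end Pool.Agent.Helper34.Dep
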