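import Pool.Agent.Helper34.Dep.Tree
import Pool.Agent.Helper64.Dep.PD

/-!
# Degree bounds for tuples
-/

set_option autoImplicit false
set_option linter.style.haveILetI false

namespace Pool.Agent.Helper34.Dep

open Polynomial Pool.Agent.Helper16 Pool.Agent.Helper47.RR IntermediateField Pool.Agent.Helper64.Dep

open scoped Polynomial.Bivariate

variable {k K : Type} [Field k] [Field K] [Algebra k K]

theorem relfinrank_adjoin_le (E : IntermediateField k K) (β : K) (p : K[X]) (hp : p ≠ 0)
    (hE : ∀ i, p.coeff i ∈ E) (m : ℕ) (hm : p.natDegree ≤ m) (h0 : p.eval β = 0) :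
    1 ≤ E.relfinrank (E ⊔ k⟮β⟯) ∧ E.relfinrank (E ⊔ k⟮β⟯) ≤ m := by
  obtain ⟨q, hq⟩ : ∃ q : E[X], q.map (algebraMap E K) = p := by
    have h1 : p ∈ Polynomial.lifts (algebraMap E K) := by
      rw [Polynomial.lifts_iff_coeff_lifts]
      intro i
      exact ⟨⟨p.coeff i, hE i⟩, rfl⟩
    exact (Polynomial.mem_lifts p).1 h1
  have hq0 : q ≠ 0 := by
    rintro rfl
    rw [Polynomial.map_zero] at hq
    exact hp hq.symm
  have hqβ : aeval β q = 0 := by
    rw [← Polynomial.eval_map_algebraMap, hq, h0]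
  have halg : IsAlgebraic E β := ⟨q, hq0, hqβ⟩
  have hint : IsIntegral E β := halg.isIntegral
  have hdeg : Module.finrank E E⟮β⟯ ≤ m := by
    rw [IntermediateField.adjoin.finrank hint]
    refine (natDegree_le_of_dvd (minpoly.dvd E β hqβ) hq0).trans ?_
    rw [← hq, natDegree_map] at hm
    exact hm
  have hpos : 1 ≤ Module.finrank E E⟮β⟯ := by
    haveI := IntermediateField.adjoin.finiteDimensional hint
    exact Module.finrank_pos
  have hle : E ≤ E ⊔ k⟮β⟯ := le_sup_left
  have h2 : extendScalars hle = E⟮β⟯ := by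
    apply IntermediateField.restrictScalars_injective k
    rw [extendScalars_restrictScalars, IntermediateField.restrictScalars_adjoin_eq_sup]
  rw [IntermediateField.relfinrank_eq_finrank_of_le hle, h2]
  exact ⟨hpos, hdeg⟩

variable {ι : Type} {m : ℕ} {D : TreeData k ι m}

/-- the root bound for a relation `Q(a, β) = 0`, `a ∈ E` -/
theorem relfinrank_rel_right (E : IntermediateField k K) (a β : K) (ha : a ∈ E)
    (hatr : Transcendental k a) (Q : k[X][Y]) (hQ : Q ≠ 0) (hm : BiDeg Q m)
    (h0 : Q.aevalAeval a β = 0) :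
    1 ≤ E.relfinrank (E ⊔ k⟮β⟯) ∧ E.relfinrank (E ⊔ k⟮β⟯) ≤ m := by
  refine relfinrank_adjoin_le E β (Q.map ((aeval a : k[X] →ₐ[k] K) : k[X] →+* K))
    (map_aeval_ne_zero hatr hQ) ?_ m (natDegree_map_le.trans hm.1) (by rw [← aevalAeval_eq, h0])
  intro i
  rw [coeff_map]
  change aeval a (Q.coeff i) ∈ E
  have h1 : aeval a (Q.coeff i) = ((aeval (⟨a, ha⟩ : E) (Q.coeff i) : E) : K) := by
    have := Polynomial.aeval_algHom_apply E.val (⟨a, ha⟩ : E) (Q.coeff i)
    exact this
  rw [h1]
  exact SetLike.coe_mem _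

theorem swap_biDeg {Q : k[X][Y]} (hm : BiDeg Q m) : BiDeg (Bivariate.swap Q) m := by
  have hcoef : ∀ i j, ((Bivariate.swap Q).coeff i).coeff j = (Q.coeff j).coeff i := by
    intro i j
    clear hm
    induction Q using Polynomial.induction_on' with
    | add p q hp hq => rw [map_add, coeff_add, coeff_add, hp, hq, coeff_add, coeff_add]
    | monomial n c =>
      induction c using Polynomial.induction_on' with
      | add p q hp hq =>
        rw [map_add, map_add, coeff_add, coeff_add, hp, hq, coeff_add, coeff_add]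
      | monomial l r =>
        rw [Bivariate.swap_monomial_monomial]
        simp only [coeff_monomial]
        split_ifs <;> simp_all [coeff_monomial]
  have hz : ∀ i j, m < i ∨ m < j → ((Bivariate.swap Q).coeff i).coeff j = 0 := by
    intro i j hij
    rw [hcoef]
    rcases hij with h | h
    · exact coeff_eq_zero_of_natDegree_lt (lt_of_le_of_lt (hm.2 j) h)
    · rw [coeff_eq_zero_of_natDegree_lt (lt_of_le_of_lt hm.1 h), coeff_zero]
  constructor
  · rw [natDegree_le_iff_coeff_eq_zero]
    intro i hi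
    ext j
    rw [hz i j (Or.inl hi), coeff_zero]
  · intro i
    rw [natDegree_le_iff_coeff_eq_zero]
    intro j hj
    exact hz i j (Or.inr hj)

theorem swap_ne_zero {Q : k[X][Y]} (hQ : Q ≠ 0) : Bivariate.swap Q ≠ 0 := by
  rwa [Ne, EmbeddingLike.map_eq_zero_iff]

theorem relfinrank_tup [Fintype ι] [DecidableEq ι] [IsAlgClosed k] {T : K}
    (hT : Transcendental k T) {y : ι → K} (hy : IsTup D T y) (hm : 1 ≤ m) (s : ι) :
    1 ≤ (k⟮y s⟯).relfinrank (IntermediateField.adjoin k (Set.range y)) ∧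
      (k⟮y s⟯).relfinrank (IntermediateField.adjoin k (Set.range y)) ≤
        m ^ (2 * Fintype.card ι) := by
  have key := D.induction (fun S => ∀ s ∈ S,
      1 ≤ (k⟮y s⟯).relfinrank (IntermediateField.adjoin k (y '' (S : Set ι))) ∧
      (k⟮y s⟯).relfinrank (IntermediateField.adjoin k (y '' (S : Set ι))) ≤ m ^ (2 * S.card)) (by
    intro s hs
    rw [Finset.mem_singleton] at hs
    subst hs
    rw [Finset.coe_singleton, Set.image_singleton, IntermediateField.relfinrank_self]
    exact ⟨le_rfl, Nat.one_le_pow _ _ hm⟩) (by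
    intro S s h0 hs hp hP
    have hs0 : s ≠ D.s₀ := by rintro rfl; exact hs h0
    set E := IntermediateField.adjoin k (y '' (S : Set ι)) with hE
    have hE' : IntermediateField.adjoin k (y '' ((insert s S : Finset ι) : Set ι)) = E ⊔ k⟮y s⟯ := by
      rw [Finset.coe_insert, Set.image_insert_eq, Set.insert_eq, Set.union_comm,
        IntermediateField.adjoin_union]
    have hmem : ∀ s' ∈ S, y s' ∈ E := fun s' hs' =>
      IntermediateField.subset_adjoin _ _ ⟨s', hs', rfl⟩
    obtain ⟨h1, h2⟩ := relfinrank_rel_right E (y (D.par s)) (y s) (hmem _ hp)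
      (hy.transcendental hT _) (D.Q s) (TreeData.ne_zero hs0) (D.deg s hs0) (hy.rel s hs0)
    have h3 : ∀ s' ∈ S, 1 ≤ (k⟮y s'⟯).relfinrank (E ⊔ k⟮y s⟯) ∧
        (k⟮y s'⟯).relfinrank (E ⊔ k⟮y s⟯) ≤ m ^ (2 * S.card + 1) := by
      intro s' hs'
      have hle : k⟮y s'⟯ ≤ E := by
        rw [IntermediateField.adjoin_simple_le_iff]
        exact hmem s' hs'
      rw [← IntermediateField.relfinrank_mul_relfinrank hle le_sup_left]
      obtain ⟨h4, h5⟩ := hP s' hs'
      refine ⟨Nat.one_le_iff_ne_zero.2 (Nat.mul_ne_zero (by omega) (by omega)), ?_⟩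
      rw [pow_succ]
      exact Nat.mul_le_mul h5 h2
    intro s' hs'
    rw [hE', Finset.card_insert_of_notMem hs]
    rcases Finset.mem_insert.1 hs' with h | h
    · subst h
      -- the new vertex
      obtain ⟨h4, h5⟩ := h3 _ hp
      have hC1 : k⟮y s'⟯ ≤ k⟮y s'⟯ ⊔ k⟮y (D.par s')⟯ := le_sup_left
      have hC2 : k⟮y (D.par s')⟯ ≤ k⟮y s'⟯ ⊔ k⟮y (D.par s')⟯ := le_sup_right
      have hC3 : k⟮y s'⟯ ⊔ k⟮y (D.par s')⟯ ≤ E ⊔ k⟮y s'⟯ := by
        refine sup_le le_sup_right (le_trans ?_ le_sup_left)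
        rw [IntermediateField.adjoin_simple_le_iff]
        exact hmem _ hp
      have h6 := IntermediateField.relfinrank_mul_relfinrank hC2 hC3
      obtain ⟨h7, h8⟩ := relfinrank_rel_right k⟮y s'⟯ (y s') (y (D.par s'))
        (IntermediateField.mem_adjoin_simple_self k _) (hy.transcendental hT _)
        (Bivariate.swap (D.Q s')) (swap_ne_zero (TreeData.ne_zero hs0)) (swap_biDeg (D.deg s' hs0))
        (by rw [Bivariate.aevalAeval_swap]; exact hy.rel s' hs0)
      have h9 := IntermediateField.relfinrank_mul_relfinrank hC1 hC3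
      rw [← h9]
      have h10 : 1 ≤ (k⟮y s'⟯ ⊔ k⟮y (D.par s')⟯).relfinrank (E ⊔ k⟮y s'⟯) := by
        exact Nat.pos_of_ne_zero fun h => by
          rw [← h6, h, mul_zero] at h4
          omega
      have h11 : (k⟮y s'⟯ ⊔ k⟮y (D.par s')⟯).relfinrank (E ⊔ k⟮y s'⟯) ≤ m ^ (2 * S.card + 1) := by
        refine le_trans ?_ h5
        rw [← h6]
        have h12 : 1 ≤ (k⟮y (D.par s')⟯).relfinrank (k⟮y s'⟯ ⊔ k⟮y (D.par s')⟯) := by
          exact Nat.pos_of_ne_zero fun h => by
            rw [← h6, h, zero_mul] at h4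
            omega
        exact Nat.le_mul_of_pos_left _ h12
      refine ⟨Nat.one_le_iff_ne_zero.2 (Nat.mul_ne_zero (by omega) (by omega)), ?_⟩
      have : m ^ (2 * (S.card + 1)) = m * m ^ (2 * S.card + 1) := by ring
      rw [this]
      exact Nat.mul_le_mul h8 h11
    · obtain ⟨h4, h5⟩ := h3 s' h
      refine ⟨h4, h5.trans (Nat.pow_le_pow_right hm (by omega))⟩)
  have h1 := key s (Finset.mem_univ s)
  rwa [Finset.coe_univ, Set.image_univ, Finset.card_univ] at h1

/-- the function field of a tuple, and the pole degrees of its members -/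
theorem tup_field [Fintype ι] [IsAlgClosed k] (htr : Algebra.trdeg k K = 1) {T : K}
    (hT : Transcendental k T) {y : ι → K} (hy : IsTup D T y) (hm : 1 ≤ m) :
    ∃ hM : IsFunctionField k (IntermediateField.adjoin k (Set.range y)), ∀ s,
      pd hM ⟨y s, IntermediateField.subset_adjoin k _ ⟨s, rfl⟩⟩ ≤ m ^ (2 * Fintype.card ι) := by
  classical
  have hM : IsFunctionField k (IntermediateField.adjoin k (Set.range y)) :=
    Pool.Agent.Helper61.BBGermA.isFunctionField_adjoin htr _ (Set.finite_range y) T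
      ⟨D.s₀, hy.root⟩ hT
  refine ⟨hM, fun s => ?_⟩
  set E := IntermediateField.adjoin k (Set.range y) with hE
  have hsE : y s ∈ E := IntermediateField.subset_adjoin k _ ⟨s, rfl⟩
  have htrs : Transcendental k (⟨y s, hsE⟩ : E) := by
    intro h
    exact hy.transcendental hT s (h.algebraMap (A := K))
  rw [pd_eq_finrank hM _ htrs]
  have h1 : k⟮E.val ⟨y s, hsE⟩⟯ ≤ E.val.fieldRange := by
    rw [IntermediateField.adjoin_simple_le_iff]
    exact ⟨_, rfl⟩
  rw [← finrank_extend E.val ⟨y s, hsE⟩ h1,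
    ← IntermediateField.relfinrank_eq_finrank_of_le h1, IntermediateField.fieldRange_val]
  exact (relfinrank_tup hT hy hm s).2

end Pool.Agent.Helper34.Dep
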