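import Pool.Agent.Helper34.Dep.Val

/-!
# Existence of germs with a prescribed value, places below germs
-/

set_option autoImplicit false
set_option linter.style.haveILetI false

namespace Pool.Agent.Helper34.Dep

open Polynomial Pool.Agent.Helper16 Pool.Agent.Helper47.RR Pool.Agent.Helper61.BBGermA

open scoped Polynomial.Bivariate

theorem exists_germ_of {k K : Type} [Field k] [Field K] [Algebra k K] (O : ValuationSubring K)
    (hconst : ∀ a : k, algebraMap k K a ∈ O)
    (key : ∀ x : O, ∃ a : k, x - ⟨algebraMap k K a, hconst a⟩ ∈ IsLocalRing.maximalIdeal O) :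
    ∃ g : Germ k K, g.O = O := by
  let i : k →+* IsLocalRing.ResidueField O :=
    (IsLocalRing.residue O).comp ((algebraMap k K).codRestrict O.toSubring hconst)
  have hi : Function.Bijective i := by
    refine ⟨i.injective, fun y => ?_⟩
    obtain ⟨x, rfl⟩ := IsLocalRing.residue_surjective y
    obtain ⟨a, ha⟩ := key x
    refine ⟨a, ?_⟩
    rw [← IsLocalRing.residue_eq_zero_iff, map_sub, sub_eq_zero] at ha
    exact ha.symm
  let e := RingEquiv.ofBijective i hi
  let red : O →+* k := e.symm.toRingHom.comp (IsLocalRing.residue O)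
  have hred0 : ∀ x : O, red x = 0 ↔ x ∈ IsLocalRing.maximalIdeal O := by
    intro x
    change e.symm (IsLocalRing.residue O x) = 0 ↔ _
    rw [map_eq_zero_iff e.symm e.symm.injective, IsLocalRing.residue_eq_zero_iff]
  exact ⟨⟨O, red, by
    intro a
    refine ⟨hconst a, ?_⟩
    change e.symm (IsLocalRing.residue O _) = a
    rw [RingEquiv.symm_apply_eq]
    rfl, hred0⟩, rfl⟩

theorem exists_germ {k K : Type} [Field k] [Field K] [Algebra k K] [IsAlgClosed k]
    (htr : Algebra.trdeg k K = 1) (T : K) (hT : Transcendental k T) (c : k) :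
    ∃ g : Germ k K, g.Val T c := by
  classical
  set s : K := T - algebraMap k K c with hsdef
  have hs : Transcendental k s := by
    intro h
    apply hT
    have h2 := h.add (isAlgebraic_algebraMap (R := k) (A := K) c)
    rwa [hsdef, sub_add_cancel] at h2
  let A : Subring K := (Algebra.adjoin k {s}).toSubring
  have hsA : s ∈ A := Algebra.self_mem_adjoin_singleton _ s
  have hI : Ideal.span {(⟨s, hsA⟩ : A)} ≠ ⊤ := by
    rw [Ne, Ideal.eq_top_iff_one, Ideal.mem_span_singleton']
    rintro ⟨⟨a, ha⟩, h⟩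
    have ha' : a ∈ Algebra.adjoin k {s} := ha
    rw [Algebra.adjoin_singleton_eq_range_aeval] at ha'
    obtain ⟨p, hp⟩ := ha'
    have h1 : a * s = 1 := congrArg Subtype.val h
    have h2 : aeval s (p * X - 1) = 0 := by
      rw [map_sub, map_mul, aeval_X, map_one]
      have hp' : aeval s p = a := hp
      rw [hp', h1, sub_self]
    have h3 : p * X - 1 = 0 := by
      by_contra h4
      exact hs ⟨_, h4, h2⟩
    have h5 := congrArg (Polynomial.eval 0) h3
    simp at h5
  obtain ⟨O, hO1, hO2⟩ := Ideal.image_subset_nonunits_valuationSubring _ hI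
  have hconst : ∀ a : k, algebraMap k K a ∈ O :=
    fun a => hO1 ((Algebra.adjoin k {s}).algebraMap_mem a)
  have hsO : s ∈ O := hO1 hsA
  have hsn : s ∈ O.nonunits := hO2 ⟨⟨s, hsA⟩, Ideal.mem_span_singleton_self _, rfl⟩
  have hsm : (⟨s, hsO⟩ : O) ∈ IsLocalRing.maximalIdeal O :=
    ValuationSubring.coe_mem_nonunits_iff.1 hsn
  have hs0 : s ≠ 0 := by
    rintro h0
    rw [h0] at hs
    exact hs isAlgebraic_zero
  have hinv : s⁻¹ ∉ O := by
    intro h
    rw [IsLocalRing.mem_maximalIdeal, mem_nonunits_iff] at hsm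
    apply hsm
    rw [isUnit_iff_exists_inv]
    refine ⟨⟨s⁻¹, h⟩, ?_⟩
    apply Subtype.ext
    exact mul_inv_cancel₀ hs0
  have key : ∀ x : O, ∃ a : k,
      x - ⟨algebraMap k K a, hconst a⟩ ∈ IsLocalRing.maximalIdeal O := by
    intro x
    have hE := isFunctionField_adjoin htr ({s, (x : K)} : Set _)
      (Set.toFinite _) s (by simp) hs
    have hsE : s ∈ IntermediateField.adjoin k ({s, (x : K)} : Set K) :=
      IntermediateField.subset_adjoin _ _ (by simp)
    have hxE : (x : K) ∈ IntermediateField.adjoin k ({s, (x : K)} : Set K) :=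
      IntermediateField.subset_adjoin _ _ (by simp)
    obtain ⟨v, hv⟩ := hE.exists_place (O.comap (algebraMap _ K))
      (fun a => hconst a) ⟨s⁻¹, inv_mem hsE⟩ hinv
    have hv' : ∀ z : IntermediateField.adjoin k ({s, (x : K)} : Set K),
        v.val z ≤ 1 ↔ (z : K) ∈ O :=
      fun z => hv z
    haveI := v.finite_resField hE
    obtain ⟨a, ha⟩ := (IsAlgClosed.algebraMap_bijective_of_isIntegral (k := k)
      (K := v.resField)).2 (v.res ⟨x, hxE⟩)
    refine ⟨a, ?_⟩
    have hxr : (⟨x, hxE⟩ : IntermediateField.adjoin k ({s, (x : K)} : Set K)) ∈ v.ring :=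
      (hv' _).2 x.2
    have har := v.ring.algebraMap_mem a
    have h1 : v.res (⟨x, hxE⟩ - algebraMap k _ a) = 0 := by
      rw [Place.res_sub v hxr har, Place.res_algebraMap, ha, sub_self]
    rw [Place.res_eq_zero_iff v (sub_mem hxr har)] at h1
    exact mem_maximalIdeal_of_val O _ v hv' _ h1
  obtain ⟨g, hg⟩ := exists_germ_of O hconst key
  refine ⟨g, ?_⟩
  rw [g.val_iff, hg]
  exact hsn

/-- the place below a germ -/
theorem Germ.exists_place {k K : Type} [Field k] [Field K] [Algebra k K] (g : Germ k K)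
    {M : Type} [Field M] [Algebra k M] (hM : IsFunctionField k M) (φ : M →ₐ[k] K) :
    ∃ w : Place k M, (∀ u, w.val u ≤ 1 ↔ φ u ∈ g.O) ∧ ∀ u a, Pv w u a ↔ g.Val (φ u) a := by
  have hex : ∃ y : M, φ y ∉ g.O := by
    by_contra hcon
    push Not at hcon
    let f : M →+* k := g.red.comp ((φ : M →+* K).codRestrict g.O.toSubring hcon)
    let F : M →ₐ[k] k := { f with
      commutes' := fun a => by
        obtain ⟨h, ha⟩ := g.red_const a
        change g.red ⟨φ (algebraMap k M a), _⟩ = a
        simp only [AlgHom.commutes]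
        exact ha }
    obtain ⟨s, hs⟩ := Pool.Agent.Helper45.S4.exists_transcendental hM
    have h1 : IsAlgebraic k (F s) := isAlgebraic_algebraMap (R := k) (A := k) (F s)
    exact hs ((isAlgebraic_algHom_iff F F.toRingHom.injective).1 h1)
  obtain ⟨y, hy⟩ := hex
  obtain ⟨w, hw⟩ := hM.exists_place (g.comap φ).O (fun a => (g.comap φ).const_mem a) y hy
  have hw' : ∀ u, w.val u ≤ 1 ↔ φ u ∈ g.O := fun u => hw u
  refine ⟨w, hw', fun u a => ?_⟩
  rw [g.val_iff, ← AlgHom.commutes φ, ← map_sub]
  unfold Pv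
  set x := u - algebraMap k M a
  by_cases hx : x = 0
  · rw [hx, map_zero, map_zero]
    constructor
    · intro _
      rw [← g.val_zero_iff]; exact g.val_zero
    · intro _; exact zero_lt_one
  have h1 : w.val x < 1 ↔ ¬ w.val x⁻¹ ≤ 1 := by
    rw [map_inv₀, not_le, one_lt_inv₀ (zero_lt_iff.2 (by simpa using hx))]
  rw [h1, hw', map_inv₀, ValuationSubring.mem_nonunits_iff, ← g.O.valuation_le_one_iff, map_inv₀,
    not_le, one_lt_inv₀]
  rw [zero_lt_iff]
  simpa using hx

/-- the germ of a place -/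
theorem exists_germ_place {k M : Type} [Field k] [Field M] [Algebra k M] [IsAlgClosed k]
    (hM : IsFunctionField k M) (w : Place k M) :
    ∃ g : Germ k M, (∀ u, w.val u ≤ 1 ↔ u ∈ g.O) ∧ ∀ u a, Pv w u a ↔ g.Val u a := by
  set O : ValuationSubring M := w.val.valuationSubring with hO
  have hmem : ∀ u, u ∈ O ↔ w.val u ≤ 1 := fun u => Iff.rfl
  have hnon : ∀ u, u ∈ O.nonunits ↔ w.val u < 1 := by
    intro u
    by_cases hu : u = 0
    · rw [hu, map_zero, ValuationSubring.mem_nonunits_iff, map_zero]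
      simp
    rw [ValuationSubring.mem_nonunits_iff]
    have h1 : w.val u < 1 ↔ ¬ w.val u⁻¹ ≤ 1 := by
      rw [map_inv₀, not_le, one_lt_inv₀ (zero_lt_iff.2 (by simpa using hu))]
    rw [h1, ← hmem, ← O.valuation_le_one_iff, map_inv₀, not_le, one_lt_inv₀]
    rw [zero_lt_iff]
    simpa using hu
  obtain ⟨g, hg⟩ := exists_germ_of O (fun a => w.val_algebraMap_le a) (by
    intro x
    obtain ⟨c, hc⟩ := Pool.Agent.Helper45.S4.exists_res_val hM w (x : M) x.2
    refine ⟨c, ?_⟩
    rw [← ValuationSubring.coe_mem_nonunits_iff]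
    exact (hnon _).2 hc)
  refine ⟨g, fun u => by rw [hg, hmem], fun u a => ?_⟩
  rw [g.val_iff, hg, hnon]
  rfl

end Pool.Agent.Helper34.Dep
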