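import Pool.Agent.Helper34.Dep.Core
import Pool.Agent.Helper98.Dep.Grp
import Pool.Agent.Helper3.Dep.Strip
import Pool.Agent.Helper38.DT.Defs
import Pool.Agent.Helper45.RatRed

/-!
# Part A of the dependent pairs theorem
-/

set_option autoImplicit false
set_option linter.style.haveILetI false

namespace Pool.Agent.Helper34.Dep

open Polynomial Pool.Agent.Helper16 Pool.Agent.Helper47.RR IntermediateField Pool.Agent.Helper64.Dep
  Pool.Agent.Helper93.RatODE Pool.Agent.Helper47.EN Pool.Agent.Helper3.Dep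
  Pool.Agent.Helper38.DT Pool.Agent.Helper45.FR

open scoped Polynomial.Bivariate

theorem exists_bivariate {R : Type} [Field R] (P : MvPolynomial (Fin 2) R) (hP : P ≠ 0) (m : ℕ)
    (hm : ∀ i, P.degreeOf i ≤ m) :
    ∃ P' : R[X][Y], P' ≠ 0 ∧ BiDeg P' m ∧
      ∀ a b : R, P'.evalEval a b = MvPolynomial.eval ![a, b] P := by
  classical
  refine ⟨MvPolynomial.aeval ![C X, (X : R[X][Y])] P, ?_, ?_, ?_⟩
  · intro h
    apply hP
    have h1 : (Bivariate.equivMvPolynomial R).symm P = 0 := h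
    simpa using h1
  · have h1 : MvPolynomial.aeval ![C X, (X : R[X][Y])] P =
        ∑ s ∈ P.support, C (C (P.coeff s) * X ^ s 0) * X ^ s 1 := by
      rw [MvPolynomial.aeval_def, MvPolynomial.eval₂_eq']
      refine Finset.sum_congr rfl fun s _ => ?_
      rw [Fin.prod_univ_two]
      simp only [Matrix.cons_val_zero, Matrix.cons_val_one]
      rw [map_mul, map_pow, mul_assoc]
      rfl
    have h0 : ∀ s ∈ P.support, s 0 ≤ m := fun s hs =>
      (MvPolynomial.le_degreeOf_of_mem_support _ hs).trans (hm 0)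
    have h2 : ∀ s ∈ P.support, s 1 ≤ m := fun s hs =>
      (MvPolynomial.le_degreeOf_of_mem_support _ hs).trans (hm 1)
    rw [h1]
    constructor
    · refine natDegree_sum_le_of_forall_le _ _ fun s hs => ?_
      exact (natDegree_C_mul_X_pow_le _ _).trans (h2 s hs)
    · intro i
      rw [finsetSum_coeff]
      refine natDegree_sum_le_of_forall_le _ _ fun s hs => ?_
      rw [coeff_C_mul_X_pow]
      split_ifs
      · exact (natDegree_C_mul_X_pow_le _ _).trans (h0 s hs)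
      · simp
  · intro a b
    have h1 : ((evalEvalRingHom a b : R[X][Y] →+* R).comp
        ((MvPolynomial.aeval ![C X, (X : R[X][Y])] : MvPolynomial (Fin 2) R →ₐ[R] R[X][Y]) :
          MvPolynomial (Fin 2) R →+* R[X][Y])) = MvPolynomial.eval ![a, b] := by
      apply MvPolynomial.ringHom_ext
      · intro c
        simp
      · intro i
        fin_cases i
        · simp
        · simp
    exact RingHom.congr_fun h1 P

theorem partA (d n m : ℕ) (hd : 2 ≤ d) : ∃ C : ℕ, ∀ N' : ℕ, ∃ N : ℕ, ∀ (k L : Type) [Field k]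
    [IsAlgClosed k] [Field L] [Algebra k L] (t : L), IsFunctionField k L → Transcendental k t →
    Algebra.IsSeparable k⟮t⟯ L → Module.finrank k⟮t⟯ L ≤ n →
    ∀ F G : L[X], IsRatD F G d → ∀ x : ℕ → L, RatOrbit F G x N →
    ∀ τ : L →ₐ[k⟮t⟯] AlgebraicClosure L, (∃ a, τ a ≠ algebraMap L (AlgebraicClosure L) a) →
    ∀ P : MvPolynomial (Fin 2) (AlgebraicClosure L), P ≠ 0 → (∀ i, P.degreeOf i ≤ m) →
    (∀ j ≤ N, MvPolynomial.eval ![algebraMap L (AlgebraicClosure L) (x j), τ (x j)] P = 0) →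
    ∃ (L₀ : IntermediateField k⟮t⟯ L)
      (Γ : Subgroup (AlgebraicClosure L ≃ₐ[k⟮t⟯] AlgebraicClosure L))
      (M : Type) (_ : Field M) (_ : Algebra (AlgebraicClosure L) M)
      (hM : IsFunctionField (AlgebraicClosure L) M) (Φ : M →ₐ[AlgebraicClosure L] M) (z : M)
      (r j₀ : ℕ) (w : ℕ → Place (AlgebraicClosure L) M),
      L₀ ≠ ⊤ ∧
      (∀ a : AlgebraicClosure L, (∀ g ∈ Γ, g a = a) → ∃ e : ℕ, ∃ b ∈ L₀,
        a ^ (ringExpChar k ^ e) = algebraMap L (AlgebraicClosure L) b) ∧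
      1 ≤ r ∧ r ≤ C ∧ j₀ ≤ C ∧ Transcendental (AlgebraicClosure L) z ∧
      Module.finrank (AlgebraicClosure L)⟮z⟯ M ≤ C ∧
      Φ z * aeval z (iter (F.map (algebraMap L (AlgebraicClosure L)))
        (G.map (algebraMap L (AlgebraicClosure L))) d r).2 =
        aeval z (iter (F.map (algebraMap L (AlgebraicClosure L)))
        (G.map (algebraMap L (AlgebraicClosure L))) d r).1 ∧
      (∀ l, w (l + 1) = plc hM hM Φ (w l)) ∧ (Set.range w).Finite ∧
      (∀ l l', l ≤ N' → l' ≤ N' → w l = w l' → l = l') ∧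
      (∀ l, Pv (w l) z (algebraMap L (AlgebraicClosure L) (x (j₀ + l * r)))) ∧
      ∀ g ∈ Γ, ∃ g' : M ≃+* M,
        (∀ c, g' (algebraMap (AlgebraicClosure L) M c) = algebraMap (AlgebraicClosure L) M (g c)) ∧
        (∀ u, g' (Φ u) = Φ (g' u)) ∧ ∀ l u, (w l).val (g' u) = (w l).val u := by
  classical
  -- the constants
  set m₁ := m + 1 with hm₁
  obtain ⟨B, hB⟩ : ∃ B, B = m₁ ^ n := ⟨_, rfl⟩
  obtain ⟨C₂, hC₂⟩ : ∃ C₂, C₂ = 2 * m₁ * ((2 * d) ^ B * m₁ ^ (2 * n)) := ⟨_, rfl⟩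
  obtain ⟨Dp, hDp⟩ : ∃ Dp, Dp = m₁ ^ (2 * n) := ⟨_, rfl⟩
  obtain ⟨NB, hNB⟩ : ∃ NB, NB = Dp * Dp * (Dp * Dp + Dp * Dp) + 1 := ⟨_, rfl⟩
  obtain ⟨e, he⟩ : ∃ e, e = n * (m₁ + m₁) := ⟨_, rfl⟩
  obtain ⟨C₃, hC₃⟩ : ∃ C₃, C₃ = B * (C₂ + 1) + (B + 1) * e := ⟨_, rfl⟩
  refine ⟨C₃ + B + NB * B + Dp, fun N' => ⟨C₃ + B + (NB + N' + 1) * B, ?_⟩⟩
  intro k L _ _ _ _ t hL ht hsep hn F G hFG x hx τ hτ P hP hm hrel
  set N := C₃ + B + (NB + N' + 1) * B with hN
  let W := AlgebraicClosure L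
  haveI : FiniteDimensional k⟮t⟯ L := hL.finiteDimensional t ht
  obtain ⟨P', hP'0, hP'm, hP'e⟩ := exists_bivariate P hP m hm
  have hP'm₁ : BiDeg P' m₁ := ⟨hP'm.1.trans (by omega), fun i => (hP'm.2 i).trans (by omega)⟩
  let σ : L →ₐ[k⟮t⟯] W := IsScalarTower.toAlgHom k⟮t⟯ L W
  have hστ : σ ≠ τ := by
    intro h
    obtain ⟨a, ha⟩ := hτ
    apply ha
    rw [← h]
    rfl
  obtain ⟨ι, _, emb, s₀, rk, par, Q, Γ, L₀, hcard, hemb₀, htree, hΓ, hL₀, hfix⟩ :=
    grp t n hn σ τ hστ m₁ N P' hP'0 hP'm₁ x (fun j hj => by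
      rw [hP'e]; exact hrel j hj)
  -- strip the relations
  have hstrip : ∀ s, ∃ (Q' : W[X][Y]) (A A' : Finset W), s ≠ s₀ → (BiDeg Q' m₁ ∧
      (∀ c, Q'.map (evalRingHom c) ≠ 0) ∧ (∀ c : W, Q'.eval (C c) ≠ 0) ∧ A.card ≤ m₁ ∧
      A'.card ≤ m₁ ∧ ∀ a b, (Q s).evalEval a b = 0 → a ∉ A → b ∉ A' → Q'.evalEval a b = 0) := by
    intro s
    by_cases hs : s ≠ s₀
    · obtain ⟨-, hQ0, hQm, -⟩ := htree s hs
      obtain ⟨Q', h1, h2, h3, A, A', h4, h5, h6⟩ := strip (Q s) hQ0 m₁ hQm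
      exact ⟨Q', A, A', fun _ => ⟨h1, h2, h3, h4, h5, h6⟩⟩
    · exact ⟨0, ∅, ∅, fun h => absurd h hs⟩
  choose Q' A A' hQ' using hstrip
  let D : TreeData W ι m₁ :=
    { s₀ := s₀
      rk := rk
      par := par
      Q := Q'
      rk_lt := fun s hs => (htree s hs).1
      deg := fun s hs => (hQ' s hs).1
      vert := fun s hs => (hQ' s hs).2.1
      horiz := fun s hs => (hQ' s hs).2.2.1 }
  let x' : ι → ℕ → W := fun s j => emb s (x j)
  have hx'inj : ∀ s i i', i ≤ N → i' ≤ N → x' s i = x' s i' → i = i' := by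
    intro s i i' hi hi' h
    exact hx.inj i i' hi hi' ((emb s).toRingHom.injective h)
  -- the exceptional indices
  let Ex : ι → Finset ℕ := fun s => (Finset.range (N + 1)).filter fun j =>
    s ≠ s₀ ∧ (x' (par s) j ∈ A s ∨ x' s j ∈ A' s)
  have hEx : ∀ s, (Ex s).card ≤ m₁ + m₁ := by
    intro s
    by_cases hs : s ≠ s₀
    · obtain ⟨-, -, -, h4, h5, -⟩ := hQ' s hs
      have h1 : Ex s ⊆ ((Finset.range (N + 1)).filter fun j => x' (par s) j ∈ A s) ∪
          ((Finset.range (N + 1)).filter fun j => x' s j ∈ A' s) := by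
        intro j hj
        obtain ⟨h6, -, h7⟩ := Finset.mem_filter.1 hj
        rcases h7 with h7 | h7
        · exact Finset.mem_union_left _ (Finset.mem_filter.2 ⟨h6, h7⟩)
        · exact Finset.mem_union_right _ (Finset.mem_filter.2 ⟨h6, h7⟩)
      refine (Finset.card_le_card h1).trans ((Finset.card_union_le _ _).trans ?_)
      refine Nat.add_le_add ?_ ?_
      · refine le_trans (Finset.card_le_card_of_injOn (fun j => x' (par s) j)
          (fun j hj => (Finset.mem_filter.1 (Finset.mem_coe.1 hj)).2) ?_) h4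
        intro j hj j' hj' h
        have h6 := Finset.mem_range.1 (Finset.mem_filter.1 (Finset.mem_coe.1 hj)).1
        have h7 := Finset.mem_range.1 (Finset.mem_filter.1 (Finset.mem_coe.1 hj')).1
        exact hx'inj _ j j' (by omega) (by omega) h
      · refine le_trans (Finset.card_le_card_of_injOn (fun j => x' s j)
          (fun j hj => (Finset.mem_filter.1 (Finset.mem_coe.1 hj)).2) ?_) h5
        intro j hj j' hj' h
        have h6 := Finset.mem_range.1 (Finset.mem_filter.1 (Finset.mem_coe.1 hj)).1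
        have h7 := Finset.mem_range.1 (Finset.mem_filter.1 (Finset.mem_coe.1 hj')).1
        exact hx'inj _ j j' (by omega) (by omega) h
    · have : Ex s = ∅ := by
        apply Finset.filter_eq_empty_iff.2
        intro j _ h
        exact hs h.1
      rw [this, Finset.card_empty]
      omega
  have hExc : (Finset.univ.biUnion Ex).card ≤ e := by
    rw [he]
    refine (Finset.card_biUnion_le_card_mul _ _ (m₁ + m₁) fun s _ => hEx s).trans ?_
    rw [Finset.card_univ]
    exact Nat.mul_le_mul_right _ hcard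
  have hrel' : ∀ j ≤ N, j ∉ Finset.univ.biUnion Ex → ∀ s, s ≠ s₀ →
      (Q' s).evalEval (x' (par s) j) (x' s j) = 0 := by
    intro j hj hjE s hs
    have h1 : j ∉ Ex s := fun h => hjE (Finset.mem_biUnion.2 ⟨s, Finset.mem_univ _, h⟩)
    have h2 : ¬ (x' (par s) j ∈ A s ∨ x' s j ∈ A' s) := fun h =>
      h1 (Finset.mem_filter.2 ⟨Finset.mem_range.2 (by omega), hs, h⟩)
    push Not at h2
    obtain ⟨-, -, -, -, -, h6⟩ := hQ' s hs
    exact h6 _ _ ((htree s hs).2.2.2 j hj) h2.1 h2.2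
  have heval : ∀ s (p : L[X]) (a : L), (p.map (emb s : L →+* W)).eval (emb s a) = emb s (p.eval a) := by
    intro s p a
    rw [eval_map]
    exact Polynomial.eval₂_at_apply (emb s : L →+* W) a
  have hemb₀' : (emb s₀ : L →+* W) = algebraMap L W := RingHom.ext hemb₀
  obtain ⟨M, _, _, hM, Φ, z, r, j₀, w, hr1, hrB, hj₀, hz, hzd, hΦ, hw, hwfin, hwinj, hwval, hact⟩ :=
    core (m := m₁) (n := n) (d := d) (by omega) (by omega) hcard D
    (fun s => F.map (emb s : L →+* W)) (fun s => G.map (emb s : L →+* W))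
    (fun s => natDegree_map_le.trans hFG.degF) (fun s => natDegree_map_le.trans hFG.degG) x'
    (fun s j => by
      change (G.map (emb s : L →+* W)).eval (emb s (x j)) ≠ 0
      rw [heval, Ne, map_eq_zero]
      exact hx.ne j)
    (fun s j => by
      change emb s (x (j + 1)) = (F.map (emb s : L →+* W)).eval (emb s (x j)) /
        (G.map (emb s : L →+* W)).eval (emb s (x j))
      rw [heval, heval, hx.step, map_div₀])
    (by
      have h1 : Set.range (x' D.s₀) = emb D.s₀ '' Set.range x := by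
        rw [← Set.range_comp]; rfl
      rw [h1]
      exact hx.fin.image _)
    B C₂ Dp NB e C₃ N N' hB hC₂ hDp hNB hC₃ le_rfl (hx'inj s₀) (Finset.univ.biUnion Ex) hExc hrel'
  refine ⟨L₀, Γ, M, _, _, hM, Φ, z, r, j₀, w, hL₀, hfix, hr1, ?_, ?_, hz, ?_, ?_, hw, hwfin, hwinj,
    ?_, ?_⟩
  · omega
  · omega
  · exact hzd.trans (by omega)
  · rw [← hemb₀']
    exact hΦ
  · intro l
    rw [← hemb₀]
    exact hwval l
  · intro g hg
    obtain ⟨π, hπ⟩ := hΓ g hg
    have hcomp : ∀ s, (emb (π s) : L →+* W) = ((g.toRingEquiv : W ≃+* W) : W →+* W).comp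
        (emb s : L →+* W) := fun s => RingHom.ext (hπ s)
    exact hact g.toRingEquiv π (fun s j => hπ s (x j))
      (fun s => by rw [hcomp, Polynomial.map_map]) (fun s => by rw [hcomp, Polynomial.map_map])

end Pool.Agent.Helper34.Dep
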