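import Pool.Agent.Helper34.Dep.Ex
import Pool.Agent.Helper3.Dep.Biv

/-!
# Transitivity: every place above a point is cut out by an embedding
-/

set_option autoImplicit false
set_option linter.style.haveILetI false

namespace Pool.Agent.Helper34.Dep

open Polynomial Pool.Agent.Helper16 Pool.Agent.Helper47.RR Pool.Agent.Helper3.Dep

open scoped Polynomial.Bivariate IntermediateField

theorem exists_embedding {k M K : Type} [Field k] [Field M] [Field K] [Algebra k M] [Algebra k K]
    [IsAlgClosed k] [IsAlgClosed K] (hM : IsFunctionField k M) (T : M) (hT : Transcendental k T)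
    (T' : K) (hT' : Transcendental k T') (g : Germ k K) (c : k) (hg : g.Val T' c)
    (w : Place k M) (hw : Pv w T c) :
    ∃ ψ : M →ₐ[k] K, ψ T = T' ∧ ∀ u, w.val u ≤ 1 ↔ ψ u ∈ g.O := by
  obtain ⟨h, hh, hhw⟩ := hM.exists_single_pole w
  have hh0 : h ≠ 0 := transcendental_ne_zero hh
  set u := h⁻¹ with hu
  have hutr : Transcendental k u := transcendental_inv hh
  have hu0 : u ≠ 0 := transcendental_ne_zero hutr
  -- the zero of `u`
  have hzero : ∀ v : Place k M, v.val u < 1 → v = w := by
    intro v hv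
    by_contra hne
    have h1 := hhw v hne
    rw [hu, map_inv₀] at hv
    have h2 := (inv_lt_one₀ (zero_lt_iff.2 (by simpa using hh0))).1 hv
    exact absurd h1 (not_le.2 h2)
  have hwu : w.val u < 1 := by
    obtain ⟨S, hS, hsum, hpos⟩ := hM.zeros u hutr
    have hne : S.Nonempty := by
      rw [Finset.nonempty_iff_ne_empty]
      rintro rfl
      rw [Finset.sum_empty] at hsum
      have : (Module.finrank k⟮u⟯ M : ℤ) ≠ 0 := by exact_mod_cast hpos.ne'
      exact this hsum.symm
    obtain ⟨v, hv⟩ := hne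
    have hv' := (hS v).1 hv
    rw [← hzero v hv']
    exact hv'
  haveI := hM.finiteDimensional T hT
  obtain ⟨R, hR0, hRc, -, hR⟩ := exists_biv T u hT (Algebra.IsAlgebraic.isAlgebraic u)
  obtain ⟨g', hg'1, hg'2⟩ := exists_germ_place hM w
  have hu' : g'.Val u 0 := (hg'2 u 0).1 (by unfold Pv; rw [map_zero, sub_zero]; exact hwu)
  have h1 := ((hg'2 T c).1 hw).aevalAeval hu' R
  rw [hR0] at h1
  have h2 : R.evalEval c 0 = 0 := h1.uniq g'.val_zero
  obtain ⟨u', hu'1, hu'2⟩ := g.lift_root hg R (hRc c) h2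
  obtain ⟨ψ, hψT, hψu⟩ := hR K T' u' hT' inferInstance hu'1
  refine ⟨ψ, hψT, ?_⟩
  obtain ⟨v, hv1, hv2⟩ := g.exists_place hM ψ
  have h3 : Pv v u 0 := (hv2 u 0).2 (by rw [hψu]; exact hu'2)
  have h4 : v = w := hzero v (by unfold Pv at h3; rwa [map_zero, sub_zero] at h3)
  rw [← h4]
  exact hv1

end Pool.Agent.Helper34.Dep
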