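import Pool.Agent.Helper34.Dep.Ex
import Pool.Agent.Helper34.Dep.Emb

/-!
# Trees of relations: tuples of algebraic functions
-/

set_option autoImplicit false
set_option linter.style.haveILetI false

namespace Pool.Agent.Helper34.Dep

open Polynomial Pool.Agent.Helper16 Pool.Agent.Helper47.RR IntermediateField

open scoped Polynomial.Bivariate

/-- a tree of bivariate relations without univariate factors -/
structure TreeData (k ι : Type) [Field k] (m : ℕ) where
  /-- the root -/
  s₀ : ι
  /-- the rank -/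
  rk : ι → ℕ
  /-- the parent -/
  par : ι → ι
  /-- the relation between the parent and the vertex -/
  Q : ι → k[X][Y]
  rk_lt : ∀ s, s ≠ s₀ → rk (par s) < rk s
  deg : ∀ s, s ≠ s₀ → BiDeg (Q s) m
  vert : ∀ s, s ≠ s₀ → ∀ c : k, (Q s).map (evalRingHom c) ≠ 0
  horiz : ∀ s, s ≠ s₀ → ∀ c : k, (Q s).eval (C c) ≠ 0

variable {k ι : Type} [Field k] {m : ℕ} (D : TreeData k ι m)

theorem TreeData.induction [Fintype ι] [DecidableEq ι] (P : Finset ι → Prop) (h0 : P {D.s₀})
    (hs : ∀ (S : Finset ι) (s : ι), D.s₀ ∈ S → s ∉ S → D.par s ∈ S → P S → P (insert s S)) :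
    P Finset.univ := by
  classical
  by_contra hcon
  obtain ⟨S, hS, hmax⟩ := Finset.exists_max_image
    ((Finset.univ : Finset (Finset ι)).filter fun S => D.s₀ ∈ S ∧ P S) Finset.card
    ⟨{D.s₀}, by simp [h0]⟩
  rw [Finset.mem_filter] at hS
  obtain ⟨-, hS0, hPS⟩ := hS
  have hne : (Finset.univ \ S).Nonempty := by
    rw [Finset.nonempty_iff_ne_empty]
    intro h
    rw [Finset.sdiff_eq_empty_iff_subset] at h
    rw [Finset.univ_subset_iff] at h
    rw [h] at hPS
    exact hcon hPS
  obtain ⟨s, hs', hmin⟩ := Finset.exists_min_image _ D.rk hne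
  have hsS : s ∉ S := (Finset.mem_sdiff.1 hs').2
  have hs0 : s ≠ D.s₀ := by
    rintro rfl
    exact hsS hS0
  have hpar : D.par s ∈ S := by
    by_contra hp
    have := hmin (D.par s) (Finset.mem_sdiff.2 ⟨Finset.mem_univ _, hp⟩)
    have := D.rk_lt s hs0
    omega
  have h1 := hmax (insert s S) (by
    rw [Finset.mem_filter]
    exact ⟨Finset.mem_univ _, Finset.mem_insert_of_mem hS0, hs S s hS0 hsS hpar hPS⟩)
  rw [Finset.card_insert_of_notMem hsS] at h1
  omega

variable {K : Type} [Field K] [Algebra k K]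

/-- the tuples satisfying the relations of the tree -/
structure IsTup (T : K) (y : ι → K) : Prop where
  root : y D.s₀ = T
  rel : ∀ s, s ≠ D.s₀ → (D.Q s).aevalAeval (y (D.par s)) (y s) = 0

theorem aevalAeval_algebraMap_right (a : K) (c : k) (P : k[X][Y]) :
    P.aevalAeval a (algebraMap k K c) = aeval a (P.eval (C c)) := by
  induction P using Polynomial.induction_on' with
  | add p q hp hq => rw [map_add, eval_add, map_add, hp, hq]
  | monomial n b =>
    rw [← C_mul_X_pow_eq_monomial, map_mul, map_pow, aevalAeval_C, aevalAeval_Y]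
    simp

theorem map_aeval_ne_zero {a : K} (ha : Transcendental k a) {Q : k[X][Y]} (hQ : Q ≠ 0) :
    Q.map ((aeval a : k[X] →ₐ[k] K) : k[X] →+* K) ≠ 0 := by
  rwa [Ne, Polynomial.map_eq_zero_iff]
  exact transcendental_iff_injective.1 ha

variable {D}

theorem TreeData.ne_zero {s : ι} (hs : s ≠ D.s₀) : D.Q s ≠ 0 := by
  intro h
  apply D.horiz s hs 0
  rw [h, eval_zero]

theorem IsTup.transcendental [Fintype ι] [IsAlgClosed k] {T : K} (hT : Transcendental k T)
    {y : ι → K} (hy : IsTup D T y) (s : ι) : Transcendental k (y s) := by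
  classical
  have key := D.induction (fun S => ∀ s ∈ S, Transcendental k (y s)) (by
    intro s hs
    rw [Finset.mem_singleton] at hs
    rw [hs, hy.root]
    exact hT) (by
    intro S s h0 hs hp hP s' hs'
    rcases Finset.mem_insert.1 hs' with h | h
    · subst h
      have hs0 : s' ≠ D.s₀ := by rintro rfl; exact hs h0
      intro halg
      obtain ⟨c, hc⟩ : ∃ c : k, algebraMap k K c = y s' := by
        have h2 := IsAlgClosed.degree_eq_one_of_irreducible k
          (minpoly.irreducible halg.isIntegral)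
        obtain ⟨c, hc⟩ := minpoly.mem_range_of_degree_eq_one k (y s') h2
        exact ⟨c, hc⟩
      have h1 := hy.rel s' hs0
      rw [← hc, aevalAeval_algebraMap_right] at h1
      exact D.horiz s' hs0 c (by
        by_contra hne
        exact hP _ hp ⟨_, hne, h1⟩)
    · exact hP s' h)
  exact key s (Finset.mem_univ s)

/-- the number of tuples is bounded -/
theorem tup_finite [Fintype ι] [IsAlgClosed k] {T : K} (hT : Transcendental k T) (hm : 1 ≤ m) :
    {y : ι → K | IsTup D T y}.Finite ∧
      {y : ι → K | IsTup D T y}.ncard ≤ m ^ Fintype.card ι := by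
  classical
  -- enumeration of roots
  have henum : ∀ p : K[X], ∃ r : Fin m → K, p ≠ 0 → p.natDegree ≤ m →
      ∀ x, p.eval x = 0 → ∃ i, r i = x := by
    intro p
    refine ⟨fun i => (p.roots.toList[(i : ℕ)]?).getD 0, fun hp hdeg x hx => ?_⟩
    have h1 : x ∈ p.roots.toList := by
      rw [Multiset.mem_toList, mem_roots hp]
      exact hx
    obtain ⟨i, hi, hix⟩ := List.getElem_of_mem h1
    have h2 : i < m := by
      rw [Multiset.length_toList] at hi
      exact lt_of_lt_of_le hi ((card_roots' p).trans hdeg)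
    refine ⟨⟨i, h2⟩, ?_⟩
    simp only
    rw [List.getElem?_eq_getElem hi, Option.getD_some, hix]
  choose r hr using henum
  have hex : ∀ (y : ι → K) (s : ι), ∃ i : Fin m, IsTup D T y → s ≠ D.s₀ →
      r ((D.Q s).map ((aeval (y (D.par s)) : k[X] →ₐ[k] K) : k[X] →+* K)) i = y s := by
    intro y s
    by_cases h : IsTup D T y ∧ s ≠ D.s₀
    · obtain ⟨hy, hs⟩ := h
      obtain ⟨i, hi⟩ := hr ((D.Q s).map ((aeval (y (D.par s)) : k[X] →ₐ[k] K) : k[X] →+* K))
        (map_aeval_ne_zero (hy.transcendental hT _) (TreeData.ne_zero hs))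
        ((natDegree_map_le).trans (D.deg s hs).1) (y s) (by
          rw [← aevalAeval_eq]; exact hy.rel s hs)
      exact ⟨i, fun _ _ => hi⟩
    · exact ⟨⟨0, hm⟩, fun h1 h2 => absurd ⟨h1, h2⟩ h⟩
  choose e he using hex
  have hinj : Set.InjOn e {y : ι → K | IsTup D T y} := by
    intro y hy y' hy' hee
    have key := D.induction (fun S => ∀ s ∈ S, y s = y' s) (by
      intro s hs
      rw [Finset.mem_singleton] at hs
      rw [hs, hy.root, hy'.root]) (by
      intro S s h0 hs hp hP s' hs'
      rcases Finset.mem_insert.1 hs' with h | h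
      · subst h
        have hs0 : s' ≠ D.s₀ := by rintro rfl; exact hs h0
        rw [← he y s' hy hs0, ← he y' s' hy' hs0, hP _ hp, hee]
      · exact hP s' h)
    funext s
    exact key s (Finset.mem_univ s)
  have hfin : {y : ι → K | IsTup D T y}.Finite :=
    Set.Finite.of_injOn (fun y _ => Set.mem_univ (e y)) hinj Set.finite_univ
  refine ⟨hfin, ?_⟩
  have h1 := Set.ncard_le_ncard_of_injOn e (t := Set.univ) (fun y _ => Set.mem_univ (e y)) hinj
    Set.finite_univ
  rwa [Set.ncard_univ, Nat.card_eq_fintype_card, Fintype.card_fun, Fintype.card_fin] at h1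

/-- **Existence of a tuple through a point** -/
theorem exists_tup [Fintype ι] [IsAlgClosed k] [IsAlgClosed K] {T : K} (g : Germ k K) (c : ι → k)
    (hT : g.Val T (c D.s₀)) (hc : ∀ s, s ≠ D.s₀ → (D.Q s).evalEval (c (D.par s)) (c s) = 0) :
    ∃ y : ι → K, IsTup D T y ∧ ∀ s, g.Val (y s) (c s) := by
  classical
  have key := D.induction (fun S => (∀ s ∈ S, s ≠ D.s₀ → D.par s ∈ S) ∧ ∃ y : ι → K,
      y D.s₀ = T ∧ ∀ s ∈ S, g.Val (y s) (c s) ∧
        (s ≠ D.s₀ → (D.Q s).aevalAeval (y (D.par s)) (y s) = 0)) (by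
    refine ⟨?_, fun _ => T, rfl, ?_⟩
    · intro s hs hs0
      rw [Finset.mem_singleton] at hs
      exact absurd hs hs0
    · intro s hs
      rw [Finset.mem_singleton] at hs
      rw [hs]
      exact ⟨hT, fun h => absurd rfl h⟩) (by
    rintro S s h0 hs hp ⟨hcl, y, hy0, hy⟩
    have hs0 : s ≠ D.s₀ := by rintro rfl; exact hs h0
    obtain ⟨z, hz1, hz2⟩ := g.lift_root (hy _ hp).1 (D.Q s) (D.vert s hs0 _) (hc s hs0)
    have hps : D.par s ≠ s := by
      intro h
      rw [h] at hp
      exact hs hp
    refine ⟨?_, Function.update y s z, ?_, ?_⟩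
    · intro s' hs' hs'0
      rcases Finset.mem_insert.1 hs' with h | h
      · rw [h]; exact Finset.mem_insert_of_mem hp
      · exact Finset.mem_insert_of_mem (hcl s' h hs'0)
    · rw [Function.update_of_ne (Ne.symm hs0), hy0]
    · intro s' hs'
      rcases Finset.mem_insert.1 hs' with h | h
      · rw [h, Function.update_self, Function.update_of_ne hps]
        exact ⟨hz2, fun _ => hz1⟩
      · have hne : s' ≠ s := by rintro rfl; exact hs h
        rw [Function.update_of_ne hne]
        refine ⟨(hy s' h).1, fun hs'0 => ?_⟩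
        have hne' : D.par s' ≠ s := by
          intro h'
          exact hs (h' ▸ hcl s' h hs'0)
        rw [Function.update_of_ne hne']
        exact (hy s' h).2 hs'0)
  obtain ⟨-, y, hy0, hy⟩ := key
  exact ⟨y, ⟨hy0, fun s hs => (hy s (Finset.mem_univ s)).2 hs⟩,
    fun s => (hy s (Finset.mem_univ s)).1⟩

end Pool.Agent.Helper34.Dep
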