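import Pool.Agent.Helper34.Dep.Bz

/-!
# Semilinear automorphisms from the uniqueness lemma
-/

set_option autoImplicit false
set_option linter.style.haveILetI false

namespace Pool.Agent.Helper34.Dep

open Polynomial Pool.Agent.Helper16 Pool.Agent.Helper47.RR IntermediateField Pool.Agent.Helper64.Dep

/-- the constants, as an extension of themselves along an automorphism -/
def KK {k : Type} [Field k] (_ : k ≃+* k) : Type := k

/-- a field with twisted constants -/
def Tw {k : Type} [Field k] (_ : k ≃+* k) (M : Type) : Type := M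

section

variable {k : Type} [Field k] (g : k ≃+* k) (M : Type) [Field M] [Algebra k M]

noncomputable instance instFieldKK : Field (KK g) := ‹Field k›

noncomputable instance instAlgebraKK : Algebra k (KK g) := (g : k →+* k).toAlgebra

noncomputable instance instFieldTw : Field (Tw g M) := ‹Field M›

noncomputable instance instAlgebraTw : Algebra k (Tw g M) :=
  ((algebraMap k M).comp (g : k →+* k)).toAlgebra

noncomputable instance instAlgebraKKTw : Algebra (KK g) (Tw g M) := ‹Algebra k M›

instance instTowerTw : IsScalarTower k (KK g) (Tw g M) :=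
  IsScalarTower.of_algebraMap_eq fun _ => rfl

/-- the identity -/
def toTw (u : M) : Tw g M := u

variable {M}

theorem tw_algebraMap (a : k) : algebraMap k (Tw g M) a = toTw g M (algebraMap k M (g a)) := rfl

theorem tw_isFunctionField (hM : IsFunctionField k M) : IsFunctionField k (Tw g M) := by
  have hsurj : Function.Surjective (algebraMap k (KK g)) := g.surjective
  haveI h1 : Algebra.EssFiniteType (KK g) (Tw g M) := hM.1
  haveI h2 : Module.Finite k (KK g) := Module.Finite.of_surjective (Algebra.linearMap k (KK g)) hsurj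
  haveI h3 : Algebra.EssFiniteType k (KK g) := inferInstance
  have h4 : Algebra.trdeg (KK g) (Tw g M) = 1 := hM.2
  haveI h6 : Algebra.IsAlgebraic k (KK g) := Algebra.IsAlgebraic.of_finite k (KK g)
  refine ⟨Algebra.EssFiniteType.comp k (KK g) (Tw g M), ?_⟩
  have h5 := trdeg_add_eq k (KK g) (A := Tw g M)
  rw [h4, trdeg_eq_zero (R := k) (A := KK g), zero_add] at h5
  exact h5.symm

/-- twisted place -/
def twPlace (w : Place k M) : Place k (Tw g M) where
  val := w.val
  surj := w.surj
  triv := fun a ha => w.triv (g a) (by simpa using ha)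

theorem twPlace_val (w : Place k M) (u : M) : (twPlace g w).val (toTw g M u) = w.val u := rfl

theorem twPlace_Pv (w : Place k M) (u : M) (a : k) :
    Pv (twPlace g w) (toTw g M u) a ↔ Pv w u (g a) := Iff.rfl

theorem tw_adjoin (S : Set M) (x : M) :
    x ∈ IntermediateField.adjoin k S ↔ toTw g M x ∈ IntermediateField.adjoin k (toTw g M '' S) := by
  have h1 : Set.range (algebraMap k (Tw g M)) = Set.range (algebraMap k M) := by
    ext y
    constructor
    · rintro ⟨a, rfl⟩; exact ⟨g a, rfl⟩
    · rintro ⟨a, rfl⟩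
      exact ⟨g.symm a, by
        change algebraMap k M (g (g.symm a)) = _
        rw [RingEquiv.apply_symm_apply]⟩
  have h2 : toTw g M '' S = S := Set.image_id S
  change x ∈ Subfield.closure (Set.range (algebraMap k M) ∪ S) ↔
    x ∈ Subfield.closure (Set.range (algebraMap k (Tw g M)) ∪ toTw g M '' S)
  rw [h1, h2]
  rfl

theorem tw_transcendental (u : M) (hu : Transcendental k u) :
    Transcendental k (toTw g M u) := by
  rintro ⟨p, hp, hp0⟩
  refine hu ⟨p.map (g : k →+* k), ?_, ?_⟩
  · rwa [Ne, Polynomial.map_eq_zero_iff g.injective]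
  · rw [aeval_def, eval₂_map]
    exact hp0

theorem tw_pd [IsAlgClosed k] (hM : IsFunctionField k M) (u : M) (hu : Transcendental k u) :
    pd (tw_isFunctionField g hM) (toTw g M u) = pd hM u := by
  rw [pd_eq_finrank _ _ hu, pd_eq_finrank _ _ (tw_transcendental g u hu)]
  have hmem : ∀ x : M, x ∈ k⟮u⟯ ↔ toTw g M x ∈ k⟮toTw g M u⟯ := by
    intro x
    rw [tw_adjoin g {u} x, Set.image_singleton]
  let i : k⟮toTw g M u⟯ ≃+* k⟮u⟯ :=
    { toFun := fun x => ⟨x.1, (hmem x.1).2 x.2⟩
      invFun := fun x => ⟨x.1, (hmem x.1).1 x.2⟩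
      left_inv := fun _ => rfl
      right_inv := fun _ => rfl
      map_mul' := fun _ _ => rfl
      map_add' := fun _ _ => rfl }
  let j : Tw g M ≃+* M := RingEquiv.refl M
  exact Algebra.finrank_eq_of_equiv_equiv i j (by ext x; rfl)

end

/-- **Semilinear automorphisms.** -/
theorem exists_semilinear {k M ι : Type} [Field k] [IsAlgClosed k] [Field M] [Algebra k M]
    (hM : IsFunctionField k M) (y : ι → M)
    (hy : IntermediateField.adjoin k (Set.range y) = ⊤) (s₀ : ι) (D : ℕ)
    (hD : ∀ s, pd hM (y s) ≤ D) (hT : ∀ s, Transcendental k (y s)) (N : ℕ)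
    (hN : D * D * (D * D + D * D) < N) (w : ℕ → Place k M)
    (c : ℕ → ι → k) (hw : ∀ l < N, ∀ s, Pv (w l) (y s) (c l s))
    (hinj : ∀ l < N, ∀ l' < N, c l s₀ = c l' s₀ → l = l') (g : k ≃+* k) (π : Equiv.Perm ι)
    (hπ : ∀ l < N, ∀ s, c l (π s) = g (c l s)) :
    ∃ g' : M ≃+* M, (∀ a, g' (algebraMap k M a) = algebraMap k M (g a)) ∧
      (∀ s, g' (y s) = y (π s)) ∧
      ∃ l < N, ∀ u, (w l).val (g' u) ≤ 1 ↔ (w l).val u ≤ 1 := by
  have htop : IntermediateField.adjoin k (Set.range fun s => toTw g M (y (π s))) = ⊤ := by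
    apply top_le_iff.1
    intro x _
    have h1 : (x : M) ∈ IntermediateField.adjoin k (Set.range y) := by
      rw [hy]; trivial
    have h2 := (tw_adjoin g (Set.range y) x).1 h1
    have h3 : (Set.range fun s => toTw g M (y (π s))) = toTw g M '' Set.range y := by
      ext z
      constructor
      · rintro ⟨s, rfl⟩; exact ⟨_, ⟨π s, rfl⟩, rfl⟩
      · rintro ⟨_, ⟨s, rfl⟩, rfl⟩; exact ⟨π.symm s, by simp⟩
    rw [h3]
    exact h2
  obtain ⟨α, hα, l, hl, hlw⟩ := bz hM (tw_isFunctionField g hM) y (fun s => toTw g M (y (π s))) hy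
    htop s₀ D hD (fun s => by
      rw [tw_pd g hM _ (hT _)]; exact hD _) (hT s₀) (tw_transcendental g _ (hT _)) N hN w
    (fun l => twPlace g (w l)) c hw (fun l hl s => by
      rw [twPlace_Pv, ← hπ l hl s]
      exact hw l hl (π s)) hinj
  refine ⟨α.toRingEquiv, fun a => ?_, fun s => hα s, l, hl, hlw⟩
  exact α.commutes a

end Pool.Agent.Helper34.Dep
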