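import Pool.Agent.Helper34.Dep.Defs

/-!
# Germs: values, existence, root lifting, places below
-/

set_option autoImplicit false
set_option linter.style.haveILetI false

namespace Pool.Agent.Helper34.Dep

open Polynomial Pool.Agent.Helper16 Pool.Agent.Helper47.RR

open scoped Polynomial.Bivariate

theorem aevalAeval_eq {k K : Type} [CommRing k] [CommRing K] [Algebra k K] (x y : K)
    (P : k[X][Y]) :
    P.aevalAeval x y = (P.map ((aeval x : k[X] →ₐ[k] K) : k[X] →+* K)).eval y := by
  induction P using Polynomial.induction_on' with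
  | add p q hp hq => rw [map_add, Polynomial.map_add, eval_add, hp, hq]
  | monomial n c =>
    rw [← C_mul_X_pow_eq_monomial, map_mul, map_pow, aevalAeval_C, aevalAeval_Y,
      Polynomial.map_mul, Polynomial.map_pow, map_C, map_X, eval_mul, eval_pow, eval_C, eval_X]
    rfl

section basic

variable {k K : Type} [Field k] [Field K] [Algebra k K] (g : Germ k K)

theorem Germ.const_mem (a : k) : algebraMap k K a ∈ g.O := (g.red_const a).1

theorem Germ.Val.mem {g : Germ k K} {x : K} {a : k} (h : g.Val x a) : x ∈ g.O := h.1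

theorem Germ.val_const (a : k) : g.Val (algebraMap k K a) a := g.red_const a

theorem Germ.val_zero : g.Val 0 0 := ⟨zero_mem _, map_zero g.red⟩

theorem Germ.val_one : g.Val 1 1 := ⟨one_mem _, map_one g.red⟩

theorem Germ.Val.uniq {g : Germ k K} {x : K} {a b : k} (h : g.Val x a) (h' : g.Val x b) :
    a = b := by
  obtain ⟨h1, rfl⟩ := h
  obtain ⟨h2, rfl⟩ := h'
  rfl

theorem Germ.Val.add {g : Germ k K} {x y : K} {a b : k} (h : g.Val x a) (h' : g.Val y b) :
    g.Val (x + y) (a + b) := by
  obtain ⟨h1, rfl⟩ := h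
  obtain ⟨h2, rfl⟩ := h'
  exact ⟨add_mem h1 h2, map_add g.red ⟨x, h1⟩ ⟨y, h2⟩⟩

theorem Germ.Val.mul {g : Germ k K} {x y : K} {a b : k} (h : g.Val x a) (h' : g.Val y b) :
    g.Val (x * y) (a * b) := by
  obtain ⟨h1, rfl⟩ := h
  obtain ⟨h2, rfl⟩ := h'
  exact ⟨mul_mem h1 h2, map_mul g.red ⟨x, h1⟩ ⟨y, h2⟩⟩

theorem Germ.Val.neg {g : Germ k K} {x : K} {a : k} (h : g.Val x a) :
    g.Val (-x) (-a) := by
  obtain ⟨h1, rfl⟩ := h
  exact ⟨neg_mem h1, map_neg g.red ⟨x, h1⟩⟩

theorem Germ.Val.sub {g : Germ k K} {x y : K} {a b : k} (h : g.Val x a) (h' : g.Val y b) :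
    g.Val (x - y) (a - b) := by
  rw [sub_eq_add_neg, sub_eq_add_neg]
  exact h.add h'.neg

theorem Germ.Val.pow {g : Germ k K} {x : K} {a : k} (h : g.Val x a) (n : ℕ) :
    g.Val (x ^ n) (a ^ n) := by
  induction n with
  | zero => simpa using g.val_one
  | succ n ih => rw [pow_succ, pow_succ]; exact ih.mul h

theorem Germ.Val.sum {g : Germ k K} {ι : Type} (s : Finset ι) {x : ι → K} {a : ι → k}
    (h : ∀ i ∈ s, g.Val (x i) (a i)) : g.Val (∑ i ∈ s, x i) (∑ i ∈ s, a i) := by
  classical
  induction s using Finset.induction_on with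
  | empty => simpa using g.val_zero
  | insert i s hi ih =>
    rw [Finset.sum_insert hi, Finset.sum_insert hi]
    exact (h i (Finset.mem_insert_self _ _)).add
      (ih fun j hj => h j (Finset.mem_insert_of_mem hj))

/-- a regular element with value zero is not invertible in the valuation ring -/
theorem Germ.val_zero_iff {x : K} : g.Val x 0 ↔ x ∈ g.O.nonunits := by
  constructor
  · rintro ⟨h1, h2⟩
    exact (ValuationSubring.coe_mem_nonunits_iff (A := g.O) (a := ⟨x, h1⟩)).2
      ((g.red_zero _).1 h2)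
  · intro h
    obtain ⟨h1, h2⟩ := ValuationSubring.mem_nonunits_iff_exists_mem_maximalIdeal.1 h
    exact ⟨h1, (g.red_zero _).2 h2⟩

theorem Germ.val_iff {x : K} {a : k} : g.Val x a ↔ x - algebraMap k K a ∈ g.O.nonunits := by
  rw [← g.val_zero_iff]
  constructor
  · intro h
    have := h.sub (g.val_const a)
    rwa [sub_self] at this
  · intro h
    have := h.add (g.val_const a)
    rwa [sub_add_cancel, zero_add] at this

theorem Germ.exists_val {x : K} (h : x ∈ g.O) : ∃ a, g.Val x a := ⟨_, h, rfl⟩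

theorem Germ.Val.inv {g : Germ k K} {x : K} {a : k} (h : g.Val x a) (ha : a ≠ 0) :
    g.Val x⁻¹ a⁻¹ := by
  have hx : x⁻¹ ∈ g.O := by
    by_contra hcon
    have h1 : x ∈ g.O.nonunits := by
      rw [ValuationSubring.mem_nonunits_iff]
      have h2 : ¬ g.O.valuation x⁻¹ ≤ 1 := fun h3 => hcon ((g.O.valuation_le_one_iff _).1 h3)
      rw [map_inv₀, not_le] at h2
      by_contra h3
      rw [not_lt] at h3
      have h4 : (g.O.valuation x)⁻¹ ≤ 1 := inv_le_one_of_one_le₀ h3
      exact absurd h2 (not_lt.2 h4)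
    exact ha (h.uniq ((g.val_zero_iff).2 h1))
  obtain ⟨b, hb⟩ := g.exists_val hx
  have hx0 : x ≠ 0 := by
    rintro rfl
    exact ha (h.uniq g.val_zero)
  have h1 := h.mul hb
  rw [mul_inv_cancel₀ hx0] at h1
  have h2 : a * b = 1 := h1.uniq g.val_one
  rw [← eq_inv_of_mul_eq_one_right h2]
  exact hb

theorem Germ.Val.div {g : Germ k K} {x y : K} {a b : k} (h : g.Val x a) (h' : g.Val y b)
    (hb : b ≠ 0) : g.Val (x / y) (a / b) := by
  rw [div_eq_mul_inv, div_eq_mul_inv]
  exact h.mul (h'.inv hb)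

theorem Germ.Val.aeval {g : Germ k K} {x : K} {a : k} (h : g.Val x a) (p : k[X]) :
    g.Val (aeval x p) (p.eval a) := by
  induction p using Polynomial.induction_on' with
  | add p q hp hq => rw [map_add, eval_add]; exact hp.add hq
  | monomial n c =>
    rw [aeval_monomial, eval_monomial]
    exact (g.val_const c).mul (h.pow n)

theorem Germ.Val.aevalAeval {g : Germ k K} {x y : K} {a b : k} (hx : g.Val x a) (hy : g.Val y b)
    (P : k[X][Y]) : g.Val (P.aevalAeval x y) (P.evalEval a b) := by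
  induction P using Polynomial.induction_on' with
  | add p q hp hq => rw [map_add, evalEval_add]; exact hp.add hq
  | monomial n c =>
    rw [← C_mul_X_pow_eq_monomial, map_mul, map_pow, aevalAeval_C, aevalAeval_Y, evalEval_mul,
      evalEval_pow, evalEval_C, evalEval_X]
    exact (hx.aeval c).mul (hy.pow n)

/-- pull-back of a germ -/
noncomputable def Germ.comap {K' : Type} [Field K'] [Algebra k K'] (φ : K' →ₐ[k] K) : Germ k K' where
  O := g.O.comap (φ : K' →+* K)
  red := g.red.comp (((φ : K' →+* K).comp (g.O.comap (φ : K' →+* K)).subtype).codRestrict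
    g.O.toSubring (fun x => x.2))
  red_const := fun a => by
    obtain ⟨h, ha⟩ := g.red_const a
    refine ⟨?_, ?_⟩
    · change φ (algebraMap k K' a) ∈ g.O
      rw [AlgHom.commutes]; exact h
    · change g.red ⟨φ (algebraMap k K' a), _⟩ = a
      simp only [AlgHom.commutes]
      exact ha
  red_zero := fun x => by
    change g.red ⟨φ (x : K'), x.2⟩ = 0 ↔ _
    rw [g.red_zero]
    rw [IsLocalRing.mem_maximalIdeal, IsLocalRing.mem_maximalIdeal, mem_nonunits_iff,
      mem_nonunits_iff, not_iff_not, isUnit_iff_exists_inv, isUnit_iff_exists_inv]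
    constructor
    · rintro ⟨y, hy⟩
      have h1 : φ (x : K') * (y : K) = 1 := congrArg Subtype.val hy
      have hx0 : (x : K') ≠ 0 := by
        intro h0
        rw [h0, map_zero, zero_mul] at h1
        exact zero_ne_one h1
      have h2 : φ ((x : K')⁻¹) = (y : K) := by
        rw [map_inv₀]
        exact (eq_inv_of_mul_eq_one_right h1).symm
      refine ⟨⟨(x : K')⁻¹, ?_⟩, Subtype.ext (mul_inv_cancel₀ hx0)⟩
      change φ ((x : K')⁻¹) ∈ g.O
      rw [h2]; exact y.2
    · rintro ⟨y, hy⟩
      have h1 : (x : K') * (y : K') = 1 := congrArg Subtype.val hy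
      refine ⟨⟨φ (y : K'), y.2⟩, Subtype.ext ?_⟩
      change φ (x : K') * φ (y : K') = 1
      rw [← map_mul, h1, map_one]

theorem Germ.comap_val {K' : Type} [Field K'] [Algebra k K'] (φ : K' →ₐ[k] K) (x : K') (a : k) :
    (g.comap φ).Val x a ↔ g.Val (φ x) a := Iff.rfl

theorem Germ.mem_comap {K' : Type} [Field K'] [Algebra k K'] (φ : K' →ₐ[k] K) (x : K') :
    x ∈ (g.comap φ).O ↔ φ x ∈ g.O := Iff.rfl

/-- **Root lifting.** -/
theorem Germ.lift_root [IsAlgClosed K] {y : K} {a b : k} (hy : g.Val y a) (Q : k[X][Y])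
    (hQ : Q.map (evalRingHom a) ≠ 0) (hb : Q.evalEval a b = 0) :
    ∃ y' : K, Q.aevalAeval y y' = 0 ∧ g.Val y' b := by
  obtain ⟨hyO, hya⟩ := hy
  let cst : k →+* g.O := (algebraMap k K).codRestrict g.O.toSubring g.const_mem
  let q : Polynomial g.O := Q.map (eval₂RingHom cst ⟨y, hyO⟩)
  have hcst : ∀ c, g.red (cst c) = c := fun c => (g.red_const c).2
  have hcomp : g.red.comp (eval₂RingHom cst ⟨y, hyO⟩) = evalRingHom a := by
    apply Polynomial.ringHom_ext
    · intro c
      simp [hcst]
    · simp [hya]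
  have hqr : q.map g.red = Q.map (evalRingHom a) := by
    rw [Polynomial.map_map, hcomp]
  obtain ⟨x, hx1, hx2⟩ := Pool.Agent.Helper61.BBGermA.root_lift g.O g.red g.red_zero q
    (by rw [hqr]; exact hQ) b (by rw [hqr, map_evalRingHom_eval]; exact hb)
  refine ⟨x, ?_, x.2, hx2⟩
  have h1 : ((q.eval x : g.O) : K) = Q.aevalAeval y x := by
    have h2 : (g.O.subtype).comp (eval₂RingHom cst ⟨y, hyO⟩) =
        ((Polynomial.aeval y : k[X] →ₐ[k] K) : k[X] →+* K) := by
      apply Polynomial.ringHom_ext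
      · intro c
        simp [cst]
      · simp
    have h3 : g.O.subtype (q.eval x) = (q.map g.O.subtype).eval (g.O.subtype x) :=
      ((Polynomial.eval_map _ _).trans (Polynomial.eval₂_at_apply _ _)).symm
    change g.O.subtype (q.eval x) = _
    rw [h3, Polynomial.map_map, h2, aevalAeval_eq]
    rfl
  rw [← h1, hx1]
  rfl

end basic

end Pool.Agent.Helper34.Dep
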